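import Pool.Agent.H80.IRG.Loc

set_option autoImplicit false

/-! Specifications of the bit-mask primitives. -/

namespace Pool.Agent.H80.IRG

theorem land_def (a b : ℕ) : Nat.land a b = a &&& b := rfl
theorem shr_def (a b : ℕ) : Nat.shiftRight a b = a >>> b := rfl
theorem shl_def (a b : ℕ) : Nat.shiftLeft a b = a <<< b := rfl

theorem beq_iff (a b : ℕ) : Nat.beq a b = true ↔ a = b := by
  simp [Nat.beq_eq]

theorem bit_eq (x i : ℕ) : bit x i = x.testBit i := by
  unfold bit bt
  have h := Nat.testBit_eq_decide_div_mod_eq (x := x) (i := i)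
  rw [h]
  rw [land_def, shr_def, Nat.and_one_is_mod, Nat.shiftRight_eq_div_pow]
  by_cases h1 : x / 2 ^ i % 2 = 1
  · simp [h1]
  · have h2 : Nat.beq (x / 2 ^ i % 2) 1 = false := by
      rw [← Bool.not_eq_true, beq_iff]; exact h1
    rw [h2]; simp [h1]

theorem bt_le (x i : ℕ) : bt x i ≤ 1 := by
  unfold bt
  rw [land_def]
  exact Nat.and_le_right

theorem nz_iff (x : ℕ) : nz x = true ↔ x ≠ 0 := by
  unfold nz
  rw [Bool.not_eq_true', ← Bool.not_eq_true, beq_iff]

theorem land_ne_zero_iff (a b : ℕ) :
    Nat.land a b ≠ 0 ↔ ∃ i, a.testBit i = true ∧ b.testBit i = true := by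
  constructor
  · intro h
    by_contra hc
    push Not at hc
    apply h
    apply Nat.eq_of_testBit_eq
    intro i
    rw [land_def, Nat.testBit_and]
    have := hc i
    cases h1 : a.testBit i <;> simp_all
  · rintro ⟨i, h1, h2⟩ h
    have : (Nat.land a b).testBit i = true := by
      rw [land_def, Nat.testBit_and, h1, h2]; rfl
    rw [h] at this
    simp at this

theorem land_eq_zero_iff (a b : ℕ) :
    Nat.land a b = 0 ↔ ∀ i, a.testBit i = true → b.testBit i = false := by
  have h := land_ne_zero_iff a b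
  constructor
  · intro h0 i hi
    by_contra hc
    exact (h.mpr ⟨i, hi, by simpa using hc⟩) h0
  · intro h0
    by_contra hc
    obtain ⟨i, h1, h2⟩ := h.mp hc
    rw [h0 i h1] at h2
    exact absurd h2 (by simp)

theorem subm_iff (a b : ℕ) : subm a b = true ↔ ∀ i, a.testBit i = true → b.testBit i = true := by
  unfold subm
  rw [beq_iff]
  constructor
  · intro h i hi
    rw [← h, land_def, Nat.testBit_and, Bool.and_eq_true] at hi
    exact hi.2
  · intro h
    apply Nat.eq_of_testBit_eq
    intro i
    rw [land_def, Nat.testBit_and]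
    cases h1 : a.testBit i
    · rfl
    · rw [h i h1]; rfl

theorem testBit_land' (a b i : ℕ) : (Nat.land a b).testBit i = (a.testBit i && b.testBit i) :=
  Nat.testBit_and a b i

theorem land_eq_pow_iff (a b s : ℕ) : Nat.land a b = 2 ^ s ↔
    ∀ i, (a.testBit i = true ∧ b.testBit i = true) ↔ i = s := by
  constructor
  · intro h i
    have : (Nat.land a b).testBit i = (2 ^ s).testBit i := by rw [h]
    rw [testBit_land', Nat.testBit_two_pow] at this
    rw [← Bool.and_eq_true, this]
    simp [eq_comm]
  · intro h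
    apply Nat.eq_of_testBit_eq
    intro i
    rw [testBit_land', Nat.testBit_two_pow]
    have := h i
    by_cases hi : i = s
    · rw [(this.mpr hi).1, (this.mpr hi).2]; simp [hi]
    · have h2 : ¬ (a.testBit i = true ∧ b.testBit i = true) := fun hc => hi (this.mp hc)
      rw [← Bool.and_eq_true] at h2
      rw [Bool.not_eq_true] at h2
      rw [h2]
      simp [Ne.symm hi]

theorem lt7_of_testBit {x i : ℕ} (hx : x < 128) (h : x.testBit i = true) : i < 7 := by
  by_contra hc
  have : x < 2 ^ i := lt_of_lt_of_le hx (by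
    calc 128 = 2 ^ 7 := by norm_num
      _ ≤ 2 ^ i := Nat.pow_le_pow_right (by norm_num) (by omega))
  rw [Nat.testBit_lt_two_pow this] at h
  exact absurd h (by simp)

theorem pget_lt (X i : ℕ) : pget X i < 128 := by
  unfold pget
  rw [land_def]
  exact lt_of_le_of_lt Nat.and_le_right (by norm_num)

/-! ### finite facts -/

theorem nn_sym_chk : allB 3 (fun T => force (NN T) fun N => allB 7 fun r => allB 7 fun s =>
    Nat.beq (bt (pget N r) s) (bt (pget N s) r)) = true := by decide +kernel

theorem nn_refl_chk : allB 3 (fun T => force (NN T) fun N => allB 7 fun r =>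
    Nat.beq (bt (pget N r) r) 1) = true := by decide +kernel

theorem nn_06_chk : allB 3 (fun T => Nat.beq (bt (pget (NN T) 0) 6) 0) = true := by
  decide +kernel

theorem pp_chk : allB 3 (fun T => force (NN T) fun N => allB 128 fun S7 =>
    force (PP N S7) fun PQ => allB 7 fun z =>
      force (Nat.land (pget N z) S7) fun M => and
      (allB 7 fun s => cond (Nat.beq M (Nat.pow 2 s)) (bit (pget PQ s) z) (not (bit (pget PQ s) z)))
      (cond (Nat.beq M 0) (bit (pget PQ 7) z) (not (bit (pget PQ 7) z)))) = true := by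
  decide +kernel


theorem nn_sym {T r s : ℕ} (hT : T < 3) (hr : r < 7) (hs : s < 7) :
    (pget (NN T) r).testBit s = (pget (NN T) s).testBit r := by
  have h := allB_spec (allB_spec (unforce (allB_spec nn_sym_chk T hT)) r hr) s hs
  rw [beq_iff] at h
  rw [← bit_eq, ← bit_eq]
  unfold bit
  rw [h]

theorem nn_refl {T r : ℕ} (hT : T < 3) (hr : r < 7) :
    (pget (NN T) r).testBit r = true := by
  have h := allB_spec (unforce (allB_spec nn_refl_chk T hT)) r hr
  rw [← bit_eq]
  exact h

theorem nn_06 {T : ℕ} (hT : T < 3) : (pget (NN T) 0).testBit 6 = false := by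
  have h := allB_spec nn_06_chk T hT
  rw [beq_iff] at h
  rw [← bit_eq]
  unfold bit
  rw [h]; rfl

theorem cond_true_false {b x : Bool} (h : cond b x (not x) = true) : x = b := by
  cases b <;> cases x <;> simp_all

theorem pp_spec {T S7 z : ℕ} (hT : T < 3) (hS : S7 < 128) (hz : z < 7) {s : ℕ} (hs : s < 7) :
    (pget (PP (NN T) S7) s).testBit z = true ↔ Nat.land (pget (NN T) z) S7 = 2 ^ s := by
  have h := unforce (allB_spec (unforce (allB_spec (unforce (allB_spec pp_chk T hT)) S7 hS)) z hz)
  rw [Bool.and_eq_true] at h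
  have h1 := cond_true_false (allB_spec h.1 s hs)
  rw [← bit_eq, h1, beq_iff]
  rfl

theorem pp_spec7 {T S7 z : ℕ} (hT : T < 3) (hS : S7 < 128) (hz : z < 7) :
    (pget (PP (NN T) S7) 7).testBit z = true ↔ Nat.land (pget (NN T) z) S7 = 0 := by
  have h := unforce (allB_spec (unforce (allB_spec (unforce (allB_spec pp_chk T hT)) S7 hS)) z hz)
  rw [Bool.and_eq_true] at h
  have h1 := cond_true_false h.2
  rw [← bit_eq, h1, beq_iff]

theorem av_chk : allB 128 (fun W7 => allB 2 fun a => allB 7 fun t => and
    (Nat.beq (bt (Nat.add (Nat.land W7 62) (Nat.add a (Nat.land W7 64))) t)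
      (cond (Nat.beq t 0) a (bt W7 t)))
    (Nat.beq (bt (Nat.add (Nat.land W7 62) (Nat.add a 0)) t)
      (cond (Nat.beq t 0) a (cond (Nat.beq t 6) 0 (bt W7 t))))) = true := by
  decide +kernel

theorem bit_of_bt {x i y : ℕ} (h : bt x i = y) : x.testBit i = Nat.beq y 1 := by
  rw [← bit_eq]; unfold bit; rw [h]

/-- the mask of available positions -/
theorem av_spec {c W7 r t : ℕ} (hW : W7 < 128) (ht : t < 7) :
    (Av c W7 r).testBit t = (if t = 0 then (Nat.testBit 114 c) else
      if t = 6 then (decide (r = 0) && W7.testBit 6) else W7.testBit t) := by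
  have h := allB_spec (allB_spec (allB_spec av_chk W7 hW) (bt 114 c)
    (by have := bt_le 114 c; omega)) t ht
  rw [Bool.and_eq_true, beq_iff, beq_iff] at h
  unfold Av
  by_cases hr : r = 0
  · have hb : Nat.beq r 0 = true := (beq_iff _ _).mpr hr
    rw [hb]
    show (Nat.add (Nat.land W7 62) (Nat.add (bt 114 c) (Nat.land W7 64))).testBit t = _
    rw [bit_of_bt h.1]
    by_cases h0 : t = 0
    · subst h0
      show Nat.beq (bt 114 c) 1 = _
      rw [if_pos rfl, ← bit_eq]; rfl
    · have h0' : Nat.beq t 0 = false := by rw [← Bool.not_eq_true, beq_iff]; exact h0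
      rw [h0', if_neg h0]
      show Nat.beq (bt W7 t) 1 = _
      have : Nat.beq (bt W7 t) 1 = W7.testBit t := by rw [← bit_eq]; rfl
      rw [this]
      by_cases h6 : t = 6
      · subst h6; simp [hr]
      · rw [if_neg h6]
  · have hb : Nat.beq r 0 = false := by rw [← Bool.not_eq_true, beq_iff]; exact hr
    rw [hb]
    show (Nat.add (Nat.land W7 62) (Nat.add (bt 114 c) 0)).testBit t = _
    rw [bit_of_bt h.2]
    by_cases h0 : t = 0
    · subst h0
      show Nat.beq (bt 114 c) 1 = _
      rw [if_pos rfl, ← bit_eq]; rfl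
    · have h0' : Nat.beq t 0 = false := by rw [← Bool.not_eq_true, beq_iff]; exact h0
      rw [h0', if_neg h0]
      show Nat.beq (cond (Nat.beq t 6) 0 (bt W7 t)) 1 = _
      by_cases h6 : t = 6
      · subst h6; simp [hr]; rfl
      · have h6' : Nat.beq t 6 = false := by rw [← Bool.not_eq_true, beq_iff]; exact h6
        rw [h6', if_neg h6]
        show Nat.beq (bt W7 t) 1 = _
        rw [← bit_eq]; rfl

/-- the same mask without the two ports treated separately -/
theorem mid_spec {W7 t : ℕ} :
    (Nat.land W7 62).testBit t = (W7.testBit t && decide (1 ≤ t ∧ t ≤ 5)) := by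
  rw [testBit_land']
  congr 1
  by_cases ht : t < 7
  · interval_cases t <;> decide
  · rw [Nat.testBit_lt_two_pow (x := 62) (i := t) (lt_of_lt_of_le (by norm_num : 62 < 2 ^ 7)
      (Nat.pow_le_pow_right (by norm_num) (by omega)))]
    symm
    simp; omega

/-! ### windows of finite sets -/

open Classical in
/-- the mask of `A` in window `j` -/
noncomputable def win (A : Finset ℕ) (j : ℕ) : ℕ := Nat.ofBits (fun t : Fin 7 => decide (6 * j + t.1 ∈ A))

theorem win_lt (A : Finset ℕ) (j : ℕ) : win A j < 128 := Nat.ofBits_lt_two_pow _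

theorem win_spec {A : Finset ℕ} {j t : ℕ} (ht : t < 7) :
    (win A j).testBit t = true ↔ 6 * j + t ∈ A := by
  unfold win
  rw [Nat.testBit_ofBits_lt _ _ ht]
  simp

end Pool.Agent.H80.IRG
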