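import Pool.Agent.H80.IRG.Loc

set_option autoImplicit false

/-! The finite checks of the transfer step. -/

namespace Pool.Agent.H80.IRG

theorem chk_sta : force (NN 0) (fun N => force dT0 fun dt => allB 128 fun s =>
    chkS N dt tb0 tbL tb0 tbL s) = true := by decide +kernel

theorem chk_mid : force (NN 1) (fun N => force dT1 fun dt => allB 128 fun s =>
    chkS N dt tbR tbR tbL tbL s) = true := by decide +kernel

theorem chk_end : force (NN 2) (fun N => force dT2 fun dt => allB 128 fun s =>
    chkE N dt s) = true := by decide +kernel

end Pool.Agent.H80.IRG
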