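import Pool.Agent.H80.IRG.Rec

set_option autoImplicit false

/-! Partial dominating sets and their extension over one window. -/

namespace Pool.Agent.H80.IRG

/-- correctness of a table entry -/
noncomputable def dmok (N dt W7 o0 o1 : ℕ) : Bool :=
  force (dm dt W7 o0 o1) fun D => or (Nat.beq D 127)
    (force (cond (Nat.beq o0 2) (Nat.lor D 1) D) fun D7 => and (subm D (Nat.land W7 126))
    (and (or (not (bit W7 1)) (nz (Nat.land (pget N 1) D7)))
    (and (or (not (bit W7 2)) (nz (Nat.land (pget N 2) D7)))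
    (and (or (not (bit W7 3)) (nz (Nat.land (pget N 3) D7)))
    (and (or (not (bit W7 4)) (nz (Nat.land (pget N 4) D7)))
    (and (or (not (bit W7 5)) (nz (Nat.land (pget N 5) D7)))
    (and (or (not (Nat.beq o1 1)) (or (not (bit W7 6)) (nz (Nat.land (pget N 6) D7))))
    (and (or (not (Nat.beq o1 2)) (bit D 6))
     (or (not (Nat.beq o0 0)) (or (not (bit W7 0)) (nz (Nat.land (pget N 0) D))))))))))))

theorem dm_chk : allB 3 (fun T => force (NN T) fun N => force (dT T) fun dt =>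
    allB 128 fun W7 => allB 3 fun o0 => allB 3 fun o1 => dmok N dt W7 o0 o1) = true := by
  decide +kernel

theorem pop_chk : allB 128 (fun x => Nat.beq (pop7 x) (Nat.add (bt x 0) (Nat.add (bt x 1)
    (Nat.add (bt x 2) (Nat.add (bt x 3) (Nat.add (bt x 4) (Nat.add (bt x 5) (bt x 6)))))))) = true := by
  decide +kernel

/-- meaning of a table entry -/
structure DSpec (N W7 o0 o1 D : ℕ) : Prop where
  sub : ∀ i, D.testBit i = true → W7.testBit i = true ∧ 1 ≤ i ∧ i ≤ 6
  inner : ∀ z, 1 ≤ z → z ≤ 5 → W7.testBit z = true →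
    ∃ i, (pget N z).testBit i = true ∧ (D.testBit i = true ∨ (o0 = 2 ∧ i = 0))
  right : o1 = 1 → W7.testBit 6 = true →
    ∃ i, (pget N 6).testBit i = true ∧ (D.testBit i = true ∨ (o0 = 2 ∧ i = 0))
  right2 : o1 = 2 → D.testBit 6 = true
  left : o0 = 0 → W7.testBit 0 = true → ∃ i, (pget N 0).testBit i = true ∧ D.testBit i = true

theorem nz_D7 {n D o0 : ℕ} (h : nz (Nat.land n (cond (Nat.beq o0 2) (Nat.lor D 1) D)) = true) :
    ∃ i, n.testBit i = true ∧ (D.testBit i = true ∨ (o0 = 2 ∧ i = 0)) := by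
  rw [nz_iff, land_ne_zero_iff] at h
  obtain ⟨i, h1, h2⟩ := h
  refine ⟨i, h1, ?_⟩
  rw [cond_eq_ite] at h2
  simp only [beq_iff] at h2
  by_cases h3 : o0 = 2
  · rw [if_pos h3] at h2
    have h4 : (D ||| 1).testBit i = true := h2
    rw [Nat.testBit_or, Bool.or_eq_true] at h4
    rcases h4 with h4 | h4
    · exact Or.inl h4
    · right
      refine ⟨h3, ?_⟩
      by_contra hc
      have : (1 : ℕ).testBit i = false :=
        Nat.testBit_lt_two_pow (lt_of_lt_of_le (by norm_num : 1 < 2 ^ 1)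
          (Nat.pow_le_pow_right (by norm_num) (by omega)))
      rw [this] at h4
      exact absurd h4 (by simp)
  · rw [if_neg h3] at h2
    exact Or.inl h2

theorem testBit_126 {i : ℕ} (h : (126 : ℕ).testBit i = true) : 1 ≤ i ∧ i ≤ 6 := by
  have h7 : i < 7 := lt7_of_testBit (by norm_num) h
  have h0 : i ≠ 0 := by
    rintro rfl
    exact absurd h (by decide)
  omega

theorem dspec {T W7 o0 o1 : ℕ} (hT : T < 3) (hW : W7 < 128) (h0 : o0 < 3) (h1 : o1 < 3)
    (hD : dm (dT T) W7 o0 o1 ≠ 127) : DSpec (NN T) W7 o0 o1 (dm (dT T) W7 o0 o1) := by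
  have h := allB_spec (allB_spec (allB_spec (unforce (unforce (allB_spec dm_chk T hT)))
    W7 hW) o0 h0) o1 h1
  unfold dmok at h
  simp only [force_eq] at h
  rw [or_true_iff, beq_iff] at h
  rcases h with h | h
  · exact absurd h hD
  simp only [Bool.and_eq_true] at h
  obtain ⟨hs, z1, z2, z3, z4, z5, r1, r2, l0⟩ := h
  have hz : ∀ z, or (not (bit W7 z)) (nz (Nat.land (pget (NN T) z)
      (cond (Nat.beq o0 2) (Nat.lor (dm (dT T) W7 o0 o1) 1) (dm (dT T) W7 o0 o1)))) = true →
      W7.testBit z = true → ∃ i, (pget (NN T) z).testBit i = true ∧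
      ((dm (dT T) W7 o0 o1).testBit i = true ∨ (o0 = 2 ∧ i = 0)) := by
    intro z hz hb
    rw [or_true_iff, not_true_iff, bit_eq] at hz
    rcases hz with hz | hz
    · exact absurd hb hz
    · exact nz_D7 hz
  refine ⟨?_, ?_, ?_, ?_, ?_⟩
  · intro i hi
    rw [subm_iff] at hs
    have := hs i hi
    rw [testBit_land', Bool.and_eq_true] at this
    exact ⟨this.1, testBit_126 this.2⟩
  · intro z h1 h5 hb
    have : z = 1 ∨ z = 2 ∨ z = 3 ∨ z = 4 ∨ z = 5 := by omega
    rcases this with rfl | rfl | rfl | rfl | rfl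
    · exact hz 1 z1 hb
    · exact hz 2 z2 hb
    · exact hz 3 z3 hb
    · exact hz 4 z4 hb
    · exact hz 5 z5 hb
  · intro h1 hb
    rw [or_true_iff, not_true_iff, ne_eq, beq_iff] at r1
    rcases r1 with r1 | r1
    · exact absurd h1 r1
    · exact hz 6 r1 hb
  · intro h1
    rw [or_true_iff, not_true_iff, ne_eq, beq_iff] at r2
    rcases r2 with r2 | r2
    · exact absurd h1 r2
    · rw [← bit_eq]; exact r2
  · intro h1 hb
    rw [or_true_iff, not_true_iff, ne_eq, beq_iff] at l0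
    rcases l0 with l0 | l0
    · exact absurd h1 l0
    · rw [or_true_iff, not_true_iff, bit_eq] at l0
      rcases l0 with l0 | l0
      · exact absurd hb l0
      · rw [nz_iff, land_ne_zero_iff] at l0
        exact l0

theorem pop7_eq {x : ℕ} (hx : x < 128) :
    pop7 x = ((Finset.range 7).filter (fun i => x.testBit i = true)).card := by
  have h := allB_spec pop_chk x hx
  rw [beq_iff] at h
  rw [h, Finset.card_filter]
  have hb : ∀ i, bt x i = if x.testBit i = true then 1 else 0 := by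
    intro i
    have h1 := bt_le x i
    rw [← bit_eq]
    unfold bit
    by_cases h2 : bt x i = 1
    · rw [h2]; rfl
    · have h3 : bt x i = 0 := by omega
      rw [h3]; rfl
  simp only [Finset.sum_range_succ, Finset.sum_range_zero, hb]
  simp only [Nat.add_eq, zero_add]
  ring

/-- positions of a mask in window `j` -/
noncomputable def emb (j x : ℕ) : Finset ℕ :=
  ((Finset.range 7).filter (fun i => x.testBit i = true)).image (fun i => 6 * j + i)

theorem emb_card {j x : ℕ} (hx : x < 128) : (emb j x).card = pop7 x := by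
  unfold emb
  rw [Finset.card_image_of_injective, pop7_eq hx]
  intro a b hab
  simp only at hab
  omega

theorem mem_emb {j x z : ℕ} (hx : x < 128) :
    z ∈ emb j x ↔ ∃ i, x.testBit i = true ∧ z = 6 * j + i := by
  unfold emb
  simp only [Finset.mem_image, Finset.mem_filter, Finset.mem_range]
  constructor
  · rintro ⟨i, ⟨_, h⟩, rfl⟩; exact ⟨i, h, rfl⟩
  · rintro ⟨i, h, rfl⟩; exact ⟨i, ⟨lt7_of_testBit hx h, h⟩, rfl⟩

/-- there is a partial dominating set up to port `j` with option `o` and excess `a - 1` -/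
def Cost (m : ℕ) (W S : Finset ℕ) (j o a : ℕ) : Prop :=
  ∃ D : Finset ℕ, D ⊆ W ∧ (∀ d ∈ D, d ≤ 6 * j) ∧ (∀ z ∈ W, z < 6 * j → ∃ d ∈ D, E m d z) ∧
    (o = 1 → 6 * j ∈ W → ∃ d ∈ D, E m d (6 * j)) ∧ (o = 2 → 6 * j ∈ D) ∧
    D.card + 1 ≤ (S.filter (fun x => x ≤ 6 * j)).card + a

variable {m : ℕ} {W S : Finset ℕ}

theorem S_card_step (j : ℕ) : (S.filter (fun x => x ≤ 6 * j)).card +
    pop7 (Nat.land (win S j) 126) ≤ (S.filter (fun x => x ≤ 6 * (j + 1))).card := by
  have hlt : Nat.land (win S j) 126 < 128 :=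
    lt_of_le_of_lt Nat.and_le_right (by norm_num)
  rw [← emb_card (j := j) hlt, ← Finset.card_union_of_disjoint]
  · apply Finset.card_le_card
    intro z hz
    rw [Finset.mem_union, Finset.mem_filter, mem_emb hlt] at hz
    rw [Finset.mem_filter]
    rcases hz with ⟨h1, h2⟩ | ⟨i, h1, rfl⟩
    · exact ⟨h1, by omega⟩
    · rw [testBit_land', Bool.and_eq_true] at h1
      have := testBit_126 h1.2
      exact ⟨(win_spec (by omega)).mp h1.1, by omega⟩
  · rw [Finset.disjoint_left]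
    intro z hz hz'
    rw [Finset.mem_filter] at hz
    rw [mem_emb hlt] at hz'
    obtain ⟨i, h1, rfl⟩ := hz'
    rw [testBit_land', Bool.and_eq_true] at h1
    have := testBit_126 h1.2
    omega

theorem dm_lt (dt W7 o0 o1 : ℕ) : dm dt W7 o0 o1 < 128 := by
  unfold dm
  exact lt_of_le_of_lt Nat.and_le_right (by norm_num)

theorem cost_step {j o0 o1 a t D : ℕ} (ho : o0 < 3) (hC : Cost m W S j o0 a)
    (hD : DSpec (nw m j) (win W j) o0 o1 D)
    (hlt : D < 128) (hcard : a + pop7 D ≤ pop7 (Nat.land (win S j) 126) + t) :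
    Cost m W S (j + 1) o1 t := by
  obtain ⟨D0, h1, h2, h3, h4, h5, h6⟩ := hC
  have hport : o0 = 2 → 6 * j ∈ D0 := h5
  refine ⟨D0 ∪ emb j D, ?_, ?_, ?_, ?_, ?_, ?_⟩
  · intro z hz
    rw [Finset.mem_union, mem_emb hlt] at hz
    rcases hz with hz | ⟨i, hi, rfl⟩
    · exact h1 hz
    · obtain ⟨h7, h8, h9⟩ := hD.sub i hi
      exact (win_spec (by omega)).mp h7
  · intro z hz
    rw [Finset.mem_union, mem_emb hlt] at hz
    rcases hz with hz | ⟨i, hi, rfl⟩
    · have := h2 z hz; omega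
    · obtain ⟨h7, h8, h9⟩ := hD.sub i hi
      omega
  · intro z hzW hz
    by_cases hz1 : z < 6 * j
    · obtain ⟨d, hd, hE⟩ := h3 z hzW hz1
      exact ⟨d, Finset.mem_union_left _ hd, hE⟩
    by_cases hz2 : z = 6 * j
    · subst hz2
      have : o0 = 0 ∨ o0 = 1 ∨ o0 = 2 := by omega
      rcases this with h | h | h
      · obtain ⟨i, hi1, hi2⟩ := hD.left h (w0.mpr hzW)
        have hi7 := lt7_of_testBit hlt hi2
        refine ⟨6 * j + i, Finset.mem_union_right _ ((mem_emb hlt).mpr ⟨i, hi2, rfl⟩), ?_⟩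
        exact (E_win (s := 0) hi7 (by norm_num)).mpr (by rw [nw_sym hi7 (by norm_num)]; exact hi1)
      · obtain ⟨d, hd, hE⟩ := h4 h hzW
        exact ⟨d, Finset.mem_union_left _ hd, hE⟩
      · exact ⟨6 * j, Finset.mem_union_left _ (hport h), E_refl _ _⟩
    · obtain ⟨i0, hi0⟩ : ∃ i0, z = 6 * j + i0 := ⟨z - 6 * j, by omega⟩
      subst hi0
      obtain ⟨i, hi1, hi2⟩ := hD.inner i0 (by omega) (by omega) ((win_spec (by omega)).mpr hzW)
      have hi7 : i < 7 := lt7_of_testBit (pget_lt _ _) hi1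
      have hE : E m (6 * j + i) (6 * j + i0) :=
        (E_win hi7 (by omega)).mpr (by rw [nw_sym hi7 (by omega)]; exact hi1)
      rcases hi2 with hi2 | ⟨hi2, rfl⟩
      · exact ⟨6 * j + i, Finset.mem_union_right _ ((mem_emb hlt).mpr ⟨i, hi2, rfl⟩), hE⟩
      · exact ⟨6 * j, Finset.mem_union_left _ (hport hi2), hE⟩
  · intro ho1 hW6
    obtain ⟨i, hi1, hi2⟩ := hD.right ho1 (w6.mpr hW6)
    have hi7 : i < 7 := lt7_of_testBit (pget_lt _ _) hi1
    have hE : E m (6 * j + i) (6 * j + 6) :=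
      (E_win hi7 (by omega)).mpr (by rw [nw_sym hi7 (by omega)]; exact hi1)
    rcases hi2 with hi2 | ⟨hi2, rfl⟩
    · exact ⟨6 * j + i, Finset.mem_union_right _ ((mem_emb hlt).mpr ⟨i, hi2, rfl⟩), hE⟩
    · exact ⟨6 * j, Finset.mem_union_left _ (hport hi2), hE⟩
  · intro ho1
    exact Finset.mem_union_right _ ((mem_emb hlt).mpr ⟨6, hD.right2 ho1, rfl⟩)
  · have hc := Finset.card_union_le D0 (emb j D)
    rw [emb_card hlt] at hc
    have hs := S_card_step (S := S) j
    omega

/-- all the costs of a packed vector are available -/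
def Vec (m : ℕ) (W S : Finset ℕ) (j v : ℕ) : Prop :=
  ∀ o < 3, comp v o ≠ 3 → Cost m W S j o (comp v o)

theorem ok1_sound {j v o0 o1 t : ℕ} (ho0 : o0 < 3) (ho1 : o1 < 3) (hv : Vec m W S j v)
    (h : ok1 (dT (ty m j)) (win W j) (pop7 (Nat.land (win S j) 126)) v o0 o1 t = true) :
    Cost m W S (j + 1) o1 t := by
  unfold ok1 at h
  simp only [force_eq, Bool.and_eq_true, not_true_iff, ne_eq, beq_iff] at h
  obtain ⟨h1, h2, h3⟩ := h
  refine cost_step ho0 (hv o0 ho0 h1) (dspec (ty_lt m j) (win_lt W j) ho0 ho1 h2)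
    (dm_lt _ _ _ _) (Nat.ble_eq.mp h3)

theorem okt_sound {j v o1 t : ℕ} (ho1 : o1 < 3) (hv : Vec m W S j v)
    (h : okt (dT (ty m j)) (win W j) (pop7 (Nat.land (win S j) 126)) v o1 t = true) (ht : t ≠ 3) :
    Cost m W S (j + 1) o1 t := by
  unfold okt at h
  rw [or_true_iff, or_true_iff, or_true_iff, beq_iff] at h
  rcases h with h | h | h | h
  · exact absurd h ht
  · exact ok1_sound (by norm_num) ho1 hv h
  · exact ok1_sound (by norm_num) ho1 hv h
  · exact ok1_sound (by norm_num) ho1 hv h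

theorem okc_sound {j v v' : ℕ} (hv : Vec m W S j v)
    (h : okc (dT (ty m j)) (win W j) (pop7 (Nat.land (win S j) 126)) v v' = true) :
    v' ≠ 63 ∧ Vec m W S (j + 1) v' := by
  unfold okc at h
  simp only [Bool.and_eq_true, not_true_iff, ne_eq, beq_iff] at h
  obtain ⟨h1, h2, h3, h4⟩ := h
  refine ⟨h1, ?_⟩
  intro o ho hne
  have : o = 0 ∨ o = 1 ∨ o = 2 := by omega
  rcases this with rfl | rfl | rfl
  · exact okt_sound (by norm_num) hv h2 hne
  · exact okt_sound (by norm_num) hv h3 hne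
  · exact okt_sound (by norm_num) hv h4 hne

end Pool.Agent.H80.IRG
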