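import Mathlib

set_option autoImplicit false

/-! General facts on irredundance and domination; transport along embeddings. -/

namespace Pool.Agent.H80.IRG

section gen
variable {α : Type} [DecidableEq α]

def irSet (G : SimpleGraph α) (U : Finset α) : Set ℕ :=
  {k : ℕ | ∃ S : Finset α, S ⊆ U ∧
    (∀ v ∈ S, ∃ w ∈ U, (w = v ∨ G.Adj v w) ∧
        ∀ u ∈ S, u ≠ v → ¬ (w = u ∨ G.Adj u w)) ∧
    (∀ x ∈ U, x ∉ S → ¬ ∀ v ∈ insert x S, ∃ w ∈ U, (w = v ∨ G.Adj v w) ∧
        ∀ u ∈ insert x S, u ≠ v → ¬ (w = u ∨ G.Adj u w)) ∧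
    S.card = k}

def gaSet (G : SimpleGraph α) (U : Finset α) : Set ℕ :=
  {k : ℕ | ∃ S : Finset α, S ⊆ U ∧
    (∀ v ∈ U, v ∈ S ∨ ∃ s ∈ S, G.Adj s v) ∧ S.card = k}

def Perf (G : SimpleGraph α) (U : Finset α) : Prop := sInf (irSet G U) = sInf (gaSet G U)

omit [DecidableEq α] in
theorem gaSet_nonempty (G : SimpleGraph α) (U : Finset α) : (gaSet G U).Nonempty :=
  ⟨U.card, U, Finset.Subset.refl _, fun _ hv => Or.inl hv, rfl⟩

/-- a minimum dominating set is maximal irredundant -/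
theorem ga_mem_ir (G : SimpleGraph α) (U : Finset α) : sInf (gaSet G U) ∈ irSet G U := by
  obtain ⟨D, hDU, hdom, hcard⟩ := Nat.sInf_mem (gaSet_nonempty G U)
  refine ⟨D, hDU, ?_, ?_, hcard⟩
  · intro v hv
    by_contra hc
    push Not at hc
    have hmem : (D.erase v).card ∈ gaSet G U := by
      refine ⟨D.erase v, (Finset.erase_subset _ _).trans hDU, ?_, rfl⟩
      intro w hw
      by_cases hwD : w ∈ D.erase v
      · exact Or.inl hwD
      right
      -- find a dominator different from `v`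
      have key : (w = v ∨ G.Adj v w) → ∃ s ∈ D.erase v, G.Adj s w := by
        intro h
        obtain ⟨u, hu, hne, hu'⟩ := hc w hw h
        have huE : u ∈ D.erase v := Finset.mem_erase.mpr ⟨hne, hu⟩
        rcases hu' with h1 | h1
        · exact absurd (h1 ▸ huE) hwD
        · exact ⟨u, huE, h1⟩
      rcases hdom w hw with h | ⟨s, hs, hadj⟩
      · have : w = v := by
          by_contra hne
          exact hwD (Finset.mem_erase.mpr ⟨hne, h⟩)
        exact key (Or.inl this)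
      · by_cases hsv : s = v
        · exact key (Or.inr (hsv ▸ hadj))
        · exact ⟨s, Finset.mem_erase.mpr ⟨hsv, hs⟩, hadj⟩
    have h1 := Nat.sInf_le hmem
    rw [← hcard] at h1
    have h2 := Finset.card_erase_lt_of_mem hv
    omega
  · intro x hx hxD h
    obtain ⟨w, hw, _, h2⟩ := h x (Finset.mem_insert_self _ _)
    rcases hdom w hw with h3 | ⟨s, hs, hadj⟩
    · exact h2 w (Finset.mem_insert_of_mem h3) (fun hc => hxD (hc ▸ h3)) (Or.inl rfl)
    · exact h2 s (Finset.mem_insert_of_mem hs) (fun hc => hxD (hc ▸ hs)) (Or.inr hadj)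

theorem perf_of (G : SimpleGraph α) (U : Finset α)
    (h : ∀ S : Finset α, S ⊆ U → (∀ v ∈ S, ∃ w ∈ U, (w = v ∨ G.Adj v w) ∧
        ∀ u ∈ S, u ≠ v → ¬ (w = u ∨ G.Adj u w)) →
      (∀ x ∈ U, x ∉ S → ¬ ∀ v ∈ insert x S, ∃ w ∈ U, (w = v ∨ G.Adj v w) ∧
        ∀ u ∈ insert x S, u ≠ v → ¬ (w = u ∨ G.Adj u w)) →
      ∃ D : Finset α, D ⊆ U ∧ (∀ v ∈ U, v ∈ D ∨ ∃ s ∈ D, G.Adj s v) ∧ D.card ≤ S.card) :
    Perf G U := by
  unfold Perf
  apply le_antisymm
  · exact Nat.sInf_le (ga_mem_ir G U)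
  · obtain ⟨S, h1, h2, h3, h4⟩ := Nat.sInf_mem ⟨_, ga_mem_ir G U⟩
    obtain ⟨D, h5, h6, h7⟩ := h S h1 h2 h3
    rw [← h4]
    have hmem : D.card ∈ gaSet G U := ⟨D, h5, h6, rfl⟩
    exact (Nat.sInf_le hmem).trans h7

end gen

/-! ### transport -/

section transport
variable {α β : Type} [DecidableEq α] [DecidableEq β] (G : SimpleGraph β) (e : α ↪ β)

omit [DecidableEq α] [DecidableEq β] in
theorem irr_map (U S : Finset α) :
    (∀ v ∈ S.map e, ∃ w ∈ U.map e, (w = v ∨ G.Adj v w) ∧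
        ∀ u ∈ S.map e, u ≠ v → ¬ (w = u ∨ G.Adj u w)) ↔
    (∀ v ∈ S, ∃ w ∈ U, (w = v ∨ (G.comap e).Adj v w) ∧
        ∀ u ∈ S, u ≠ v → ¬ (w = u ∨ (G.comap e).Adj u w)) := by
  constructor
  · intro h v hv
    obtain ⟨w, hw, h1, h2⟩ := h (e v) (Finset.mem_map_of_mem e hv)
    obtain ⟨w', hw', rfl⟩ := Finset.mem_map.mp hw
    refine ⟨w', hw', ?_, ?_⟩
    · rcases h1 with h1 | h1
      · exact Or.inl (e.injective h1)
      · exact Or.inr h1
    · intro u hu hne hc
      refine h2 (e u) (Finset.mem_map_of_mem e hu) (fun h => hne (e.injective h)) ?_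
      rcases hc with hc | hc
      · exact Or.inl (by rw [hc])
      · exact Or.inr hc
  · intro h v hv
    obtain ⟨v', hv', rfl⟩ := Finset.mem_map.mp hv
    obtain ⟨w, hw, h1, h2⟩ := h v' hv'
    refine ⟨e w, Finset.mem_map_of_mem e hw, ?_, ?_⟩
    · rcases h1 with h1 | h1
      · exact Or.inl (by rw [h1])
      · exact Or.inr h1
    · intro u hu hne hc
      obtain ⟨u', hu', rfl⟩ := Finset.mem_map.mp hu
      refine h2 u' hu' (fun h => hne (by rw [h])) ?_
      rcases hc with hc | hc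
      · exact Or.inl (e.injective hc)
      · exact Or.inr hc

omit [DecidableEq α] [DecidableEq β] in
theorem dom_map (U S : Finset α) :
    (∀ v ∈ U.map e, v ∈ S.map e ∨ ∃ s ∈ S.map e, G.Adj s v) ↔
    (∀ v ∈ U, v ∈ S ∨ ∃ s ∈ S, (G.comap e).Adj s v) := by
  constructor
  · intro h v hv
    rcases h (e v) (Finset.mem_map_of_mem e hv) with h1 | ⟨s, hs, h1⟩
    · exact Or.inl ((Finset.mem_map' e).mp h1)
    · obtain ⟨s', hs', rfl⟩ := Finset.mem_map.mp hs
      exact Or.inr ⟨s', hs', h1⟩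
  · intro h v hv
    obtain ⟨v', hv', rfl⟩ := Finset.mem_map.mp hv
    rcases h v' hv' with h1 | ⟨s, hs, h1⟩
    · exact Or.inl (Finset.mem_map_of_mem e h1)
    · exact Or.inr ⟨e s, Finset.mem_map_of_mem e hs, h1⟩

theorem max_map (U S : Finset α) :
    (∀ x ∈ U.map e, x ∉ S.map e → ¬ ∀ v ∈ insert x (S.map e), ∃ w ∈ U.map e,
        (w = v ∨ G.Adj v w) ∧ ∀ u ∈ insert x (S.map e), u ≠ v → ¬ (w = u ∨ G.Adj u w)) ↔
    (∀ x ∈ U, x ∉ S → ¬ ∀ v ∈ insert x S, ∃ w ∈ U, (w = v ∨ (G.comap e).Adj v w) ∧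
        ∀ u ∈ insert x S, u ≠ v → ¬ (w = u ∨ (G.comap e).Adj u w)) := by
  constructor
  · intro h x hx hxS hc
    apply h (e x) (Finset.mem_map_of_mem e hx) (fun h1 => hxS ((Finset.mem_map' e).mp h1))
    rw [← Finset.map_insert]
    exact (irr_map G e U (insert x S)).mpr hc
  · intro h x hx hxS hc
    obtain ⟨x', hx', rfl⟩ := Finset.mem_map.mp hx
    apply h x' hx' (fun h1 => hxS (Finset.mem_map_of_mem e h1))
    rw [← Finset.map_insert] at hc
    exact (irr_map G e U (insert x' S)).mp hc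

theorem irSet_map (U : Finset α) : irSet G (U.map e) = irSet (G.comap e) U := by
  ext k
  constructor
  · rintro ⟨S, h1, h2, h3, h4⟩
    obtain ⟨S', hS', rfl⟩ := Finset.subset_map_iff.mp h1
    exact ⟨S', hS', (irr_map G e U S').mp h2, (max_map G e U S').mp h3, by
      rw [← h4, Finset.card_map]⟩
  · rintro ⟨S, h1, h2, h3, h4⟩
    exact ⟨S.map e, Finset.map_subset_map.mpr h1, (irr_map G e U S).mpr h2,
      (max_map G e U S).mpr h3, by rw [← h4, Finset.card_map]⟩

theorem gaSet_map (U : Finset α) : gaSet G (U.map e) = gaSet (G.comap e) U := by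
  ext k
  constructor
  · rintro ⟨S, h1, h2, h4⟩
    obtain ⟨S', hS', rfl⟩ := Finset.subset_map_iff.mp h1
    exact ⟨S', hS', (dom_map G e U S').mp h2, by rw [← h4, Finset.card_map]⟩
  · rintro ⟨S, h1, h2, h4⟩
    exact ⟨S.map e, Finset.map_subset_map.mpr h1, (dom_map G e U S).mpr h2,
      by rw [← h4, Finset.card_map]⟩

theorem perf_map (U : Finset α) : Perf G (U.map e) ↔ Perf (G.comap e) U := by
  unfold Perf
  rw [irSet_map, gaSet_map]

end transport

/-- assembly: a family of graphs on `ℕ` with arbitrarily many unavoidable vertices gives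
infinitely many minimally imperfect graphs. -/
theorem assemble
    (H : ∀ N : ℕ, ∃ (G : SimpleGraph ℕ) (V P : Finset ℕ), N < P.card ∧ ¬ Perf G V ∧
      ∀ U ⊆ V, ¬ P ⊆ U → Perf G U) :
    ¬ (∃ N : ℕ, ∀ n : ℕ, ∀ G : SimpleGraph (Fin n),
      (¬ ∀ U : Finset (Fin n), Perf G U) ∧
      (∀ U : Finset (Fin n), U ≠ Finset.univ → Perf G U) → n ≤ N) := by
  rintro ⟨N, hN⟩
  obtain ⟨G, V, P, hP, hV, hU⟩ := H N
  -- a minimal imperfect subset
  classical
  have hne : (V.powerset.filter (fun U => ¬ Perf G U)).Nonempty :=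
    ⟨V, by rw [Finset.mem_filter, Finset.mem_powerset]; exact ⟨Finset.Subset.refl _, hV⟩⟩
  obtain ⟨U, hU1, hU2⟩ := Finset.exists_min_image _ Finset.card hne
  rw [Finset.mem_filter, Finset.mem_powerset] at hU1
  obtain ⟨hUV, hUimp⟩ := hU1
  have hPU : P ⊆ U := by
    by_contra hc
    exact hUimp (hU U hUV hc)
  have hcard : N < U.card := lt_of_lt_of_le hP (Finset.card_le_card hPU)
  let e : Fin U.card ↪ ℕ := (U.orderEmbOfFin rfl).toEmbedding
  have hmap : (Finset.univ : Finset (Fin U.card)).map e = U := by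
    ext x
    rw [Finset.mem_map]
    constructor
    · rintro ⟨i, _, rfl⟩
      exact Finset.orderEmbOfFin_mem U rfl i
    · intro hx
      have : x ∈ Set.range (U.orderEmbOfFin rfl) := by
        rw [Finset.range_orderEmbOfFin]; exact hx
      obtain ⟨i, hi⟩ := this
      exact ⟨i, Finset.mem_univ _, hi⟩
  have := hN U.card (G.comap e) ⟨?_, ?_⟩
  · omega
  · intro h
    have h1 := (perf_map G e Finset.univ).mpr (h Finset.univ)
    rw [hmap] at h1
    exact hUimp h1
  · intro U' hne'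
    rw [← perf_map]
    by_contra hc
    have hsub : U'.map e ⊆ U := by
      have h0 : U'.map e ⊆ (Finset.univ : Finset (Fin U.card)).map e :=
        Finset.map_subset_map.mpr (Finset.subset_univ _)
      exact fun x hx => hmap ▸ h0 hx
    have hlt : (U'.map e).card < U.card := by
      rw [Finset.card_map]
      have : U' ⊂ Finset.univ := Finset.ssubset_univ_iff.mpr hne'
      have := Finset.card_lt_card this
      simpa using this
    have := hU2 (U'.map e) (by
      rw [Finset.mem_filter, Finset.mem_powerset]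
      exact ⟨hsub.trans hUV, hc⟩)
    omega

end Pool.Agent.H80.IRG
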