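import Pool.Agent.H80.IRG.Main
import Pool.Agent.H80.IRG.Gen

set_option autoImplicit false

/-! The graphs of the family: perfectness of subgraphs missing a port, imperfectness of the whole
graph.

The graph `F_m` (`m ≥ 1`) has the `6m+7` vertices `0, …, 6m+6`.  With `v_0 = u = 0`, `v_i = 6i`, and
block `i` (`1 ≤ i ≤ m`) consisting of `a_i, b_i, p_i, q_i, w_i, v_i` (positions 1,…,6 of window
`i-1`), the edges are `u p_1`; `a_i b_i, a_i p_i, a_i v_i, b_i q_i, p_i q_i, q_i w_i, v_i w_i`;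
`v_i b_{i+1}, v_i p_{i+1}`; and in the last block `A,B,P,Q,H,g` the edges
`AB, AP, Ag, BQ, Bg, QH, v_m B, v_m P`.
* `{a_i, b_i, A, B}` is a maximal irredundant set with `2m+2` vertices, and `γ(F_m) ≥ 2m+3`;
* every induced subgraph of `F_m` which misses some `v_i` (`1 ≤ i ≤ m`) has `ir = γ`.
So a minimal imperfect induced subgraph of `F_m` contains `v_1, …, v_m`.  (A computer search
shows that `F_m` itself is minimally imperfect for `m ≤ 8`; this is not used.) -/

namespace Pool.Agent.H80.IRG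

/-- the graph -/
def Gr (m : ℕ) : SimpleGraph ℕ where
  Adj x y := x ≠ y ∧ E m x y
  symm := ⟨fun _ _ h => ⟨h.1.symm, E_symm h.2⟩⟩
  loopless := ⟨fun _ h => h.1 rfl⟩

theorem cl_iff {m v w : ℕ} : (w = v ∨ (Gr m).Adj v w) ↔ E m v w := by
  constructor
  · rintro (rfl | h)
    · exact E_refl _ _
    · exact h.2
  · intro h
    by_cases hw : w = v
    · exact Or.inl hw
    · exact Or.inr ⟨fun h' => hw h'.symm, h⟩

/-- maximal irredundant sets satisfy the vertex condition -/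
theorem VP_of_max {m : ℕ} {U S : Finset ℕ}
    (h2 : ∀ v ∈ S, ∃ w ∈ U, (w = v ∨ (Gr m).Adj v w) ∧
        ∀ u ∈ S, u ≠ v → ¬ (w = u ∨ (Gr m).Adj u w))
    (h3 : ∀ x ∈ U, x ∉ S → ¬ ∀ v ∈ insert x S, ∃ w ∈ U, (w = v ∨ (Gr m).Adj v w) ∧
        ∀ u ∈ insert x S, u ≠ v → ¬ (w = u ∨ (Gr m).Adj u w)) : VP m U S := by
  simp only [cl_iff] at h2 h3
  intro x hx hxS ⟨z, hxz, hzU, hz⟩
  have h4 := h3 x hx hxS
  push Not at h4
  obtain ⟨v, hv, h5⟩ := h4
  rw [Finset.mem_insert] at hv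
  rcases hv with rfl | hv
  · exfalso
    obtain ⟨u, hu, hne, hE⟩ := h5 z hzU hxz
    rw [Finset.mem_insert] at hu
    rcases hu with hu | hu
    · exact hne hu
    · exact hz u hu hE
  · refine ⟨v, hv, ?_, ?_⟩
    · obtain ⟨w, hw, hvw, hall⟩ := h2 v hv
      exact ⟨w, hw, hvw, fun u hu hE => by
        by_contra hne
        exact hall u hu hne hE⟩
    · rintro w ⟨hw, hvw, hall⟩
      obtain ⟨u, hu, hne, hE⟩ := h5 w hw hvw
      rw [Finset.mem_insert] at hu
      rcases hu with rfl | hu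
      · exact hE
      · exact absurd (hall u hu hE) hne

theorem perf_cut {m : ℕ} (hm : 1 ≤ m) {U : Finset ℕ} (hU : U ⊆ Finset.range (6 * m + 7))
    (hcut : ∃ i, 1 ≤ i ∧ i ≤ m ∧ 6 * i ∉ U) : Perf (Gr m) U := by
  apply perf_of
  intro S hS h2 h3
  obtain ⟨D, d1, d2, d3⟩ := dom_of_VP hm hU hS (VP_of_max h2 h3) hcut
  refine ⟨D, d1, ?_, d3⟩
  intro v hv
  obtain ⟨d, hd, hE⟩ := d2 v hv
  rcases (cl_iff (m := m)).mpr hE with h | h
  · exact Or.inl (h ▸ hd)
  · exact Or.inr ⟨d, hd, h⟩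

/-! ### the maximal irredundant set -/

def S0 (m : ℕ) : Finset ℕ :=
  (Finset.range (m + 1)).image (fun j => 6 * j + 1) ∪
    (Finset.range (m + 1)).image (fun j => 6 * j + 2)

theorem mem_S0 {m x : ℕ} : x ∈ S0 m ↔ ∃ j, j ≤ m ∧ (x = 6 * j + 1 ∨ x = 6 * j + 2) := by
  unfold S0
  simp only [Finset.mem_union, Finset.mem_image, Finset.mem_range]
  constructor
  · rintro (⟨j, hj, rfl⟩ | ⟨j, hj, rfl⟩)
    · exact ⟨j, by omega, Or.inl rfl⟩
    · exact ⟨j, by omega, Or.inr rfl⟩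
  · rintro ⟨j, hj, rfl | rfl⟩
    · exact Or.inl ⟨j, by omega, rfl⟩
    · exact Or.inr ⟨j, by omega, rfl⟩

theorem card_S0 (m : ℕ) : (S0 m).card = 2 * m + 2 := by
  unfold S0
  rw [Finset.card_union_of_disjoint, Finset.card_image_of_injective,
    Finset.card_image_of_injective, Finset.card_range]
  · ring
  · intro a b hab; simp only at hab; omega
  · intro a b hab; simp only at hab; omega
  · rw [Finset.disjoint_left]
    intro x hx hx'
    rw [Finset.mem_image] at hx hx'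
    obtain ⟨a, _, rfl⟩ := hx
    obtain ⟨b, _, hb⟩ := hx'
    omega

/-- all the local adjacencies which are needed -/
theorem nbf {T : ℕ} (hT : T < 3) :
    (pget (NN T) 1).testBit 3 = true ∧ (pget (NN T) 2).testBit 4 = true ∧
    (pget (NN T) 3).testBit 2 = false ∧ (pget (NN T) 4).testBit 1 = false ∧
    (pget (NN T) 0).testBit 3 = true ∧ (pget (NN T) 2).testBit 1 = true ∧
    (pget (NN T) 1).testBit 0 = false ∧ (pget (NN T) 1).testBit 4 = false ∧
    (pget (NN T) 1).testBit 5 = false ∧ (pget (NN T) 2).testBit 3 = false ∧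
    (pget (NN T) 2).testBit 5 = false ∧ (pget (NN T) 1).testBit 6 = true ∧
    (pget (NN T) 5).testBit 4 = true := by
  interval_cases T <;> decide +kernel

theorem nbf0 : (pget (NN 0) 2).testBit 0 = false ∧ (pget (NN 0) 2).testBit 6 = false := by
  decide +kernel
theorem nbf1 : (pget (NN 1) 2).testBit 0 = true ∧ (pget (NN 1) 2).testBit 6 = false := by
  decide +kernel
theorem nbf2 : (pget (NN 2) 2).testBit 0 = true ∧ (pget (NN 2) 2).testBit 6 = true ∧
    (pget (NN 2) 6).testBit 3 = false ∧ (pget (NN 2) 6).testBit 4 = false ∧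
    (pget (NN 2) 6).testBit 5 = false := by
  decide +kernel

theorem nw_zero (m : ℕ) : nw m 0 = NN 0 := by unfold nw ty; rw [if_pos rfl]
theorem nw_last {m : ℕ} (hm : 1 ≤ m) : nw m m = NN 2 := by
  unfold nw ty; rw [if_neg (by omega), if_pos rfl]
theorem nw_mid {m j : ℕ} (h0 : j ≠ 0) (h : j ≠ m) : nw m j = NN 1 := by
  unfold nw ty; rw [if_neg h0, if_neg h]

theorem Ew {m j t s : ℕ} (ht : t < 7) (hs : s < 7) (h : (pget (nw m j) t).testBit s = true) :
    E m (6 * j + t) (6 * j + s) := (E_win ht hs).mpr h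

theorem S0_irr (m : ℕ) : ∀ v ∈ S0 m, ∃ w ∈ Finset.range (6 * m + 7), E m v w ∧
    ∀ u ∈ S0 m, u ≠ v → ¬ E m u w := by
  intro v hv
  obtain ⟨j, hj, hv'⟩ := mem_S0.mp hv
  obtain ⟨n13, n24, n32, n41, _⟩ := nbf (ty_lt m j)
  rcases hv' with rfl | rfl
  · refine ⟨6 * j + 3, by rw [Finset.mem_range]; omega, Ew (by norm_num) (by norm_num) n13, ?_⟩
    intro u hu hne hE
    obtain ⟨i, hi, rfl, hb⟩ := E_inner (by norm_num) (by norm_num) hE
    obtain ⟨j', _, h | h⟩ := mem_S0.mp hu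
    · omega
    · have : i = 2 := by omega
      subst this
      rw [show pget (nw m j) 3 = pget (NN (ty m j)) 3 from rfl, n32] at hb
      exact absurd hb (by simp)
  · refine ⟨6 * j + 4, by rw [Finset.mem_range]; omega, Ew (by norm_num) (by norm_num) n24, ?_⟩
    intro u hu hne hE
    obtain ⟨i, hi, rfl, hb⟩ := E_inner (by norm_num) (by norm_num) hE
    obtain ⟨j', _, h | h⟩ := mem_S0.mp hu
    · have : i = 1 := by omega
      subst this
      rw [show pget (nw m j) 4 = pget (NN (ty m j)) 4 from rfl, n41] at hb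
      exact absurd hb (by simp)
    · omega

theorem false_ne_true' {b : Bool} (h : b = false) (h' : b = true) : False := by
  rw [h] at h'; exact absurd h' (by simp)

theorem S0_max {m : ℕ} (hm : 1 ≤ m) : ∀ x ∈ Finset.range (6 * m + 7), x ∉ S0 m →
    ∃ v ∈ insert x (S0 m), ∀ w ∈ Finset.range (6 * m + 7), E m v w →
      ∃ u ∈ insert x (S0 m), u ≠ v ∧ E m u w := by
  intro x hx hxS
  rw [Finset.mem_range] at hx
  have hS : ∀ j, j ≤ m → 6 * j + 1 ∈ insert x (S0 m) ∧ 6 * j + 2 ∈ insert x (S0 m) := fun j hj =>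
    ⟨Finset.mem_insert_of_mem (mem_S0.mpr ⟨j, hj, Or.inl rfl⟩),
      Finset.mem_insert_of_mem (mem_S0.mpr ⟨j, hj, Or.inr rfl⟩)⟩
  have hxm : x ∈ insert x (S0 m) := Finset.mem_insert_self _ _
  by_cases hg : x = 6 * m + 6
  · -- the last port
    subst hg
    refine ⟨6 * m + 6, hxm, ?_⟩
    intro w hw hE
    rw [Finset.mem_range] at hw
    obtain ⟨n20, n26, n63, n64, n65⟩ := nbf2
    obtain ⟨n13, n24, n32, n41, n03, n21, n10, n14, n15, n23, n25, n16, n54⟩ := nbf (ty_lt m m)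
    rcases E_cases (j := m) (t := 6) (by norm_num) (E_symm hE) with
      ⟨i, hi, rfl, hb⟩ | ⟨h4, h5⟩ | ⟨h4, h5⟩
    · rw [nw_last hm] at hb
      have hi1 : i = 1 ∨ i = 2 ∨ i = 6 := by
        interval_cases i
        · exact absurd (nn_06 (T := 2) (by norm_num)) (by
            rw [nn_sym (by norm_num) (by norm_num) (by norm_num)]; rw [hb]; simp)
        · omega
        · omega
        · exact (false_ne_true' n63 hb).elim
        · exact (false_ne_true' n64 hb).elim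
        · exact (false_ne_true' n65 hb).elim
        · omega
      rcases hi1 with rfl | rfl | rfl
      · exact ⟨6 * m + 1, (hS m (le_refl _)).1, by omega, E_refl _ _⟩
      · exact ⟨6 * m + 2, (hS m (le_refl _)).2, by omega, E_refl _ _⟩
      · exact ⟨6 * m + 1, (hS m (le_refl _)).1, by omega, Ew (by norm_num) (by norm_num) n16⟩
    · omega
    · omega
  obtain ⟨j, t, hj, ht, hxjt⟩ : ∃ j t, j ≤ m ∧ t < 6 ∧ x = 6 * j + t :=
    ⟨x / 6, x % 6, by omega, by omega, by omega⟩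
  have ht1 : t ≠ 1 := by
    rintro rfl; exact hxS (mem_S0.mpr ⟨j, hj, Or.inl hxjt⟩)
  have ht2 : t ≠ 2 := by
    rintro rfl; exact hxS (mem_S0.mpr ⟨j, hj, Or.inr hxjt⟩)
  obtain ⟨n13, n24, n32, n41, n03, n21, n10, n14, n15, n23, n25, n16, n54⟩ := nbf (ty_lt m j)
  by_cases ht3 : t = 0 ∨ t = 3
  · refine ⟨6 * j + 1, (hS j hj).1, ?_⟩
    intro w hw hE
    obtain ⟨i, hi, rfl, hb⟩ := E_inner (by norm_num) (by norm_num) (E_symm hE)
    have hi' : i = 1 ∨ i = 2 ∨ i = 3 ∨ i = 6 := by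
      interval_cases i
      · exact (false_ne_true' n10 hb).elim
      · omega
      · omega
      · omega
      · exact (false_ne_true' n14 hb).elim
      · exact (false_ne_true' n15 hb).elim
      · omega
    rcases hi' with rfl | rfl | rfl | rfl
    · exact ⟨6 * j + 2, (hS j hj).2, by omega, Ew (by norm_num) (by norm_num) n21⟩
    · exact ⟨6 * j + 2, (hS j hj).2, by omega, E_refl _ _⟩
    · refine ⟨x, hxm, by omega, ?_⟩
      rcases ht3 with rfl | rfl
      · rw [hxjt]; exact Ew (by norm_num) (by norm_num) n03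
      · rw [hxjt]; exact E_refl _ _
    · by_cases hjm : j = m
      · subst hjm
        refine ⟨6 * j + 2, (hS j hj).2, by omega, Ew (by norm_num) (by norm_num) ?_⟩
        rw [nw_last hm]; exact nbf2.2.1
      · refine ⟨6 * (j + 1) + 2, (hS (j + 1) (by omega)).2, by omega, ?_⟩
        have h : (pget (nw m (j + 1)) 2).testBit 0 = true := by
          by_cases hjm' : j + 1 = m
          · rw [hjm', nw_last hm]; exact nbf2.1
          · rw [nw_mid (by omega) hjm']; exact nbf1.1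
        exact Ew (s := 0) (by norm_num) (by norm_num) h
  · refine ⟨6 * j + 2, (hS j hj).2, ?_⟩
    have ht45 : t = 4 ∨ t = 5 := by omega
    intro w hw hE
    obtain ⟨i, hi, rfl, hb⟩ := E_inner (by norm_num) (by norm_num) (E_symm hE)
    have hi' : i = 0 ∨ i = 1 ∨ i = 2 ∨ i = 4 ∨ i = 6 := by
      interval_cases i
      · omega
      · omega
      · omega
      · exact (false_ne_true' n23 hb).elim
      · omega
      · exact (false_ne_true' n25 hb).elim
      · omega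
    rcases hi' with rfl | rfl | rfl | rfl | rfl
    · by_cases hj0 : j = 0
      · subst hj0
        rw [nw_zero] at hb
        exact (false_ne_true' nbf0.1 hb).elim
      · obtain ⟨k, rfl⟩ : ∃ k, j = k + 1 := ⟨j - 1, by omega⟩
        obtain ⟨_, _, _, _, _, _, _, _, _, _, _, k16, _⟩ := nbf (ty_lt m k)
        exact ⟨6 * k + 1, (hS k (by omega)).1, by omega, Ew (s := 6) (by norm_num) (by norm_num) k16⟩
    · exact ⟨6 * j + 1, (hS j hj).1, by omega, E_refl _ _⟩
    · refine ⟨6 * j + 1, (hS j hj).1, by omega, Ew (by norm_num) (by norm_num) ?_⟩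
      rw [nw_sym (by norm_num) (by norm_num)]; exact n21
    · refine ⟨x, hxm, by omega, ?_⟩
      rcases ht45 with rfl | rfl
      · rw [hxjt]; exact E_refl _ _
      · rw [hxjt]; exact Ew (by norm_num) (by norm_num) n54
    · exact ⟨6 * j + 1, (hS j hj).1, by omega, Ew (by norm_num) (by norm_num) n16⟩

theorem S0_mem_irSet {m : ℕ} (hm : 1 ≤ m) :
    2 * m + 2 ∈ irSet (Gr m) (Finset.range (6 * m + 7)) := by
  refine ⟨S0 m, ?_, ?_, ?_, card_S0 m⟩
  · intro x hx
    obtain ⟨j, hj, h⟩ := mem_S0.mp hx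
    rw [Finset.mem_range]; omega
  · simp only [cl_iff]
    exact S0_irr m
  · simp only [cl_iff]
    intro x hx hxS hc
    obtain ⟨v, hv, h⟩ := S0_max hm x hx hxS
    obtain ⟨w, hw, hE, hall⟩ := hc v hv
    obtain ⟨u, hu, hne, hE'⟩ := h w hw hE
    exact hall u hu hne hE'

/-! ### the lower bound on the domination number -/

def lbchk (N D : ℕ) : Bool :=
  or (not (and (nz (Nat.land (pget N 1) D)) (and (nz (Nat.land (pget N 2) D))
    (and (nz (Nat.land (pget N 3) D)) (and (nz (Nat.land (pget N 4) D))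
      (nz (Nat.land (pget N 5) D)))))))
  (and (Nat.ble 1 (pop7 (Nat.land D 126)))
  (and (or (not (nz (Nat.land (pget N 6) D))) (Nat.ble 2 (pop7 (Nat.land D 126))))
  (or (bit D 0) (or (not (nz (Nat.land (pget N 0) D)))
    (and (Nat.ble 2 (pop7 (Nat.land D 126)))
      (or (not (nz (Nat.land (pget N 6) D))) (Nat.ble 3 (pop7 (Nat.land D 126)))))))))

theorem lb_chk : allB 3 (fun T => force (NN T) fun N => allB 128 fun D => lbchk N D) = true := by
  decide +kernel

theorem lb_spec {m j D : ℕ} (hD : D < 128)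
    (hin : ∀ t, 1 ≤ t → t ≤ 5 → Nat.land (pget (nw m j) t) D ≠ 0) :
    1 ≤ pop7 (Nat.land D 126) ∧
    (Nat.land (pget (nw m j) 6) D ≠ 0 → 2 ≤ pop7 (Nat.land D 126)) ∧
    (¬ D.testBit 0 = true → Nat.land (pget (nw m j) 0) D ≠ 0 → 2 ≤ pop7 (Nat.land D 126) ∧
      (Nat.land (pget (nw m j) 6) D ≠ 0 → 3 ≤ pop7 (Nat.land D 126))) := by
  have h := allB_spec (unforce (allB_spec lb_chk (ty m j) (ty_lt m j))) D hD
  unfold lbchk at h
  have h1 := or_not_left h (by
    simp only [Bool.and_eq_true, nz_iff]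
    exact ⟨hin 1 (by norm_num) (by norm_num), hin 2 (by norm_num) (by norm_num),
      hin 3 (by norm_num) (by norm_num), hin 4 (by norm_num) (by norm_num),
      hin 5 (by norm_num) (by norm_num)⟩)
  simp only [Bool.and_eq_true, or_true_iff, not_true_iff, nz_iff, ne_eq, bit_eq,
    Nat.ble_eq, not_not] at h1
  obtain ⟨a, b, c⟩ := h1
  refine ⟨a, ?_, ?_⟩
  · intro h6
    rcases b with b | b
    · exact absurd b h6
    · exact b
  · intro h0 h00
    rcases c with c | c | ⟨c, d⟩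
    · exact absurd c h0
    · exact absurd c h00
    · refine ⟨c, ?_⟩
      intro h6
      rcases d with d | d
      · exact absurd d h6
      · exact d

theorem lb_inner {m : ℕ} {D : Finset ℕ}
    (hdom : ∀ z, z < 6 * m + 7 → ∃ d ∈ D, E m d z) {j : ℕ} (hj : j ≤ m) :
    ∀ t, 1 ≤ t → t ≤ 5 → Nat.land (pget (nw m j) t) (win D j) ≠ 0 := by
  intro t h1 h5
  obtain ⟨d, hd, hE⟩ := hdom (6 * j + t) (by omega)
  obtain ⟨i, hi, rfl, hb⟩ := E_inner h1 h5 hE
  rw [land_ne_zero_iff]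
  exact ⟨i, hb, (win_spec hi).mpr hd⟩

theorem lb_port {m : ℕ} {D : Finset ℕ} {j : ℕ}
    (h : ∃ d ∈ D, d ≤ 6 * (j + 1) ∧ E m d (6 * (j + 1))) :
    Nat.land (pget (nw m j) 6) (win D j) ≠ 0 := by
  obtain ⟨d, hd, hle, hE⟩ := h
  rcases E_cases (j := j) (t := 6) (by norm_num) (show E m d (6 * j + 6) from hE) with
    ⟨i, hi, rfl, hb⟩ | ⟨h4, h5⟩ | ⟨h4, h5⟩
  · rw [land_ne_zero_iff]
    exact ⟨i, hb, (win_spec hi).mpr hd⟩
  · omega
  · omega

theorem lb_port0 {m : ℕ} {D : Finset ℕ} {j : ℕ}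
    (hdom : ∀ z, z < 6 * m + 7 → ∃ d ∈ D, E m d z) (hj : j ≤ m)
    (h : ¬ ∃ d ∈ D, d ≤ 6 * j ∧ E m d (6 * j)) :
    ¬ (win D j).testBit 0 = true ∧ Nat.land (pget (nw m j) 0) (win D j) ≠ 0 := by
  constructor
  · intro hc
    exact h ⟨6 * j, w0.mp hc, le_refl _, E_refl _ _⟩
  · obtain ⟨d, hd, hE⟩ := hdom (6 * j) (by omega)
    rcases E_cases (j := j) (t := 0) (by norm_num) (show E m d (6 * j + 0) from hE) with
      ⟨i, hi, rfl, hb⟩ | ⟨h4, h5⟩ | ⟨h4, h5⟩
    · rw [land_ne_zero_iff]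
      exact ⟨i, hb, (win_spec hi).mpr hd⟩
    · exact absurd ⟨d, hd, by omega, hE⟩ h
    · omega

theorem lb_ind {m : ℕ} {D : Finset ℕ} (hdom : ∀ z, z < 6 * m + 7 → ∃ d ∈ D, E m d z) :
    ∀ j, j ≤ m → 2 * j ≤ (D.filter (fun x => x ≤ 6 * j)).card ∧
      ((∃ d ∈ D, d ≤ 6 * j ∧ E m d (6 * j)) →
        2 * j + 1 ≤ (D.filter (fun x => x ≤ 6 * j)).card) := by
  intro j
  induction j with
  | zero =>
    intro _
    refine ⟨by omega, ?_⟩
    rintro ⟨d, hd, hle, _⟩
    have : 0 < (D.filter (fun x => x ≤ 6 * 0)).card :=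
      Finset.card_pos.mpr ⟨d, by rw [Finset.mem_filter]; exact ⟨hd, hle⟩⟩
    omega
  | succ j ih =>
    intro hj
    obtain ⟨ih1, ih2⟩ := ih (by omega)
    have hs := S_card_step (S := D) j
    obtain ⟨a, b, c⟩ := lb_spec (m := m) (j := j) (win_lt D j) (lb_inner hdom (by omega))
    by_cases hp : ∃ d ∈ D, d ≤ 6 * j ∧ E m d (6 * j)
    · have ih3 := ih2 hp
      refine ⟨by omega, ?_⟩
      intro h
      have := b (lb_port h)
      omega
    · obtain ⟨h1, h2⟩ := lb_port0 hdom (by omega) hp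
      obtain ⟨c1, c2⟩ := c h1 h2
      refine ⟨by omega, ?_⟩
      intro h
      have := c2 (lb_port h)
      omega

theorem lb_final {m : ℕ} {D : Finset ℕ} (hD : D ⊆ Finset.range (6 * m + 7))
    (hdom : ∀ z, z < 6 * m + 7 → ∃ d ∈ D, E m d z) : 2 * m + 3 ≤ D.card := by
  obtain ⟨ih1, ih2⟩ := lb_ind hdom m (le_refl _)
  have hs := S_card_step (S := D) m
  have hf := Finset.card_filter_le D (fun x => x ≤ 6 * (m + 1))
  obtain ⟨a, b, c⟩ := lb_spec (m := m) (j := m) (win_lt D m) (lb_inner hdom (le_refl _))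
  have hg : ∃ d ∈ D, d ≤ 6 * (m + 1) ∧ E m d (6 * (m + 1)) := by
    obtain ⟨d, hd, hE⟩ := hdom (6 * (m + 1)) (by omega)
    have := Finset.mem_range.mp (hD hd)
    exact ⟨d, hd, by omega, hE⟩
  by_cases hp : ∃ d ∈ D, d ≤ 6 * m ∧ E m d (6 * m)
  · have ih3 := ih2 hp
    have := b (lb_port hg)
    omega
  · obtain ⟨h1, h2⟩ := lb_port0 hdom (le_refl _) hp
    obtain ⟨c1, c2⟩ := c h1 h2
    have := c2 (lb_port hg)
    omega

theorem imperfect {m : ℕ} (hm : 1 ≤ m) : ¬ Perf (Gr m) (Finset.range (6 * m + 7)) := by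
  unfold Perf
  intro h
  have h1 := Nat.sInf_le (S0_mem_irSet hm)
  obtain ⟨D, hD, hdom, hcard⟩ := Nat.sInf_mem (gaSet_nonempty (Gr m) (Finset.range (6 * m + 7)))
  have h2 := lb_final (m := m) hD (fun z hz => by
    rcases hdom z (Finset.mem_range.mpr hz) with h | ⟨s, hs, h⟩
    · exact ⟨z, h, E_refl _ _⟩
    · exact ⟨s, hs, h.2⟩)
  omega

theorem family (N : ℕ) : ∃ (G : SimpleGraph ℕ) (V P : Finset ℕ), N < P.card ∧ ¬ Perf G V ∧
    ∀ U ⊆ V, ¬ P ⊆ U → Perf G U := by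
  refine ⟨Gr (N + 1), Finset.range (6 * (N + 1) + 7),
    (Finset.Icc 1 (N + 1)).image (fun i => 6 * i), ?_, imperfect (by omega), ?_⟩
  · rw [Finset.card_image_of_injective _ (fun a b hab => Nat.eq_of_mul_eq_mul_left (by norm_num) hab),
      Nat.card_Icc]
    omega
  · intro U hU hP
    apply perf_cut (by omega) hU
    rw [Finset.not_subset] at hP
    obtain ⟨x, hx, hxU⟩ := hP
    rw [Finset.mem_image] at hx
    obtain ⟨i, hi, rfl⟩ := hx
    rw [Finset.mem_Icc] at hi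
    exact ⟨i, hi.1, hi.2, hxU⟩

end Pool.Agent.H80.IRG
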