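import Pool.Agent.H80.IRG.Sem

set_option autoImplicit false

/-! Invariants of the left and right classes; the vertex condition implies the local check. -/

namespace Pool.Agent.H80.IRG

variable {m : ℕ} {W S : Finset ℕ}

structure InvL (m : ℕ) (W S : Finset ℕ) (j c : ℕ) : Prop where
  absent : 6 * j ∉ W → c = 0
  inS : 6 * j ∈ S → c = 1 ∨ c = 2 ∨ c = 3
  inN : 6 * j ∈ W → 6 * j ∉ S → 4 ≤ c ∧ c ≤ 15
  av : Nat.testBit 114 c = true → 6 * j ∈ W ∧ ¬ LS m S j
  av' : 6 * j ∈ W → ¬ LS m S j → Nat.testBit 114 c = true ∨ (6 * j ∈ S ∧ c = 3)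
  e : c = 3 → ∃ z, z < 6 * j ∧ pn m W S (6 * j) z
  f : 6 * j ∈ W → 6 * j ∉ S → ∀ s ∈ S, s < 6 * j → E m s (6 * j) →
    (∀ u ∈ S, u < 6 * j → E m u (6 * j) → u = s) → (∀ z, pn m W S s z → z = 6 * j) →
    Nat.testBit 7168 c = true
  t : Nat.testBit 18720 c = true → ∃ z, E m (6 * j) z ∧ und m W S z
  w : 6 * j ∈ W → 6 * j ∉ S → ∀ s ∈ S, s < 6 * j → (∃ z, pn m W S s z ∧ z ≠ 6 * j) →
    (∀ z, pn m W S s z → z ≠ 6 * j → E m (6 * j) z) → Nat.testBit 37440 c = true

structure InvR (m : ℕ) (W S : Finset ℕ) (j r : ℕ) : Prop where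
  lt3 : r < 3
  absent : 6 * j ∉ W → r = 0
  av : 6 * j ∈ W → r = 0 → ¬ RS m S j
  av' : 6 * j ∈ W → ¬ RS m S j → r = 0 ∨ (6 * j ∈ S ∧ r = 2)
  e : 6 * j ∈ S → r = 2 → ∃ z, 6 * j < z ∧ pn m W S (6 * j) z
  f : 6 * j ∈ W → 6 * j ∉ S → ∀ s ∈ S, 6 * j < s → E m s (6 * j) →
    (∀ u ∈ S, 6 * j < u → E m u (6 * j) → u = s) → (∀ z, pn m W S s z → z = 6 * j) →
    r = 1

theorem A_sound {j c r t : ℕ} (hL : InvL m W S j c) (hR : InvR m W S (j + 1) r) (ht : t < 7)
    (h : (Av c (win W j) r).testBit t = true) : 6 * j + t ∈ W ∧ ¬ ext m S j t := by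
  rw [av_spec (win_lt W j) ht] at h
  by_cases h0 : t = 0
  · subst h0
    rw [if_pos rfl] at h
    obtain ⟨h1, h2⟩ := hL.av h
    refine ⟨h1, ?_⟩
    rintro (⟨_, h3⟩ | ⟨h3, _⟩)
    · exact h2 h3
    · omega
  · rw [if_neg h0] at h
    by_cases h6 : t = 6
    · subst h6
      rw [if_pos rfl, Bool.and_eq_true, decide_eq_true_eq] at h
      refine ⟨(win_spec ht).mp h.2, ?_⟩
      rintro (⟨h3, _⟩ | ⟨_, h3⟩)
      · omega
      · exact hR.av ((win_spec ht).mp h.2) h.1 h3
    · rw [if_neg h6] at h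
      exact ⟨(win_spec ht).mp h, ext_inner (by omega) (by omega)⟩

theorem A_compl {j c r t : ℕ} (hL : InvL m W S j c) (hR : InvR m W S (j + 1) r) (ht : t < 7)
    (h1 : 6 * j + t ∈ W) (h2 : ¬ ext m S j t) :
    (Av c (win W j) r).testBit t = true ∨ (t = 0 ∧ 6 * j ∈ S ∧ c = 3) ∨
      (t = 6 ∧ 6 * (j + 1) ∈ S ∧ r = 2) := by
  rw [av_spec (win_lt W j) ht]
  by_cases h0 : t = 0
  · subst h0
    rw [if_pos rfl]
    rcases hL.av' h1 (fun h => h2 (Or.inl ⟨rfl, h⟩)) with h | h
    · exact Or.inl h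
    · exact Or.inr (Or.inl ⟨rfl, h⟩)
  · rw [if_neg h0]
    by_cases h6 : t = 6
    · subst h6
      rw [if_pos rfl]
      rcases hR.av' h1 (fun h => h2 (Or.inr ⟨rfl, h⟩)) with h | h
      · left
        rw [(win_spec ht).mpr h1, h]; rfl
      · exact Or.inr (Or.inr ⟨rfl, h⟩)
    · rw [if_neg h6]
      exact Or.inl ((win_spec ht).mpr h1)

/-- abbreviations for the words of window `j` -/
noncomputable def pq (m : ℕ) (S : Finset ℕ) (j : ℕ) : ℕ := PP (nw m j) (win S j)

theorem pq_spec {j z s : ℕ} (hz : z < 7) (hs : s < 7) :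
    (pget (pq m S j) s).testBit z = true ↔ Nat.land (pget (nw m j) z) (win S j) = 2 ^ s :=
  pp_spec (ty_lt m j) (win_lt S j) hz hs

theorem pq_spec7 {j z : ℕ} (hz : z < 7) :
    (pget (pq m S j) 7).testBit z = true ↔ Nat.land (pget (nw m j) z) (win S j) = 0 :=
  pp_spec7 (ty_lt m j) (win_lt S j) hz

theorem lt7_land_left {a b i : ℕ} (ha : a < 128) (h : (Nat.land a b).testBit i = true) : i < 7 := by
  rw [testBit_land', Bool.and_eq_true] at h
  exact lt7_of_testBit ha h.1

/-- masked private set: soundness -/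
theorem P_sound {j c r s t : ℕ} (hL : InvL m W S j c) (hR : InvR m W S (j + 1) r) (hs : s < 7)
    (hS : 6 * j + s ∈ S)
    (h : (Nat.land (pget (pq m S j) s) (Av c (win W j) r)).testBit t = true) :
    t < 7 ∧ pn m W S (6 * j + s) (6 * j + t) := by
  have ht := lt7_land_left (pget_lt _ _) h
  rw [testBit_land', Bool.and_eq_true] at h
  obtain ⟨h1, h2⟩ := A_sound hL hR ht h.2
  exact ⟨ht, (pn_iff ht hs hS).mpr ⟨h1, h2, (pq_spec ht hs).mp h.1⟩⟩

theorem P_compl {j c r s t : ℕ} (hL : InvL m W S j c) (hR : InvR m W S (j + 1) r) (hs : s < 7)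
    (hS : 6 * j + s ∈ S) (ht : t < 7) (h : pn m W S (6 * j + s) (6 * j + t)) :
    (Nat.land (pget (pq m S j) s) (Av c (win W j) r)).testBit t = true ∨
     (t = 0 ∧ s = 0 ∧ c = 3) ∨ (t = 6 ∧ s = 6 ∧ r = 2) := by
  have h' := h
  rw [pn_iff ht hs hS] at h
  obtain ⟨h1, h2, h3⟩ := h
  rcases A_compl hL hR ht h1 h2 with hA | ⟨h4, h5, h6⟩ | ⟨h4, h5, h6⟩
  · left
    rw [testBit_land', (pq_spec ht hs).mpr h3, hA]; rfl
  · right; left
    subst h4
    refine ⟨rfl, ?_, h6⟩
    have := h'.2.2 (6 * j) h5 (E_refl _ _)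
    omega
  · right; right
    subst h4
    refine ⟨rfl, ?_, h6⟩
    have := h'.2.2 (6 * j + 6) h5 (E_refl _ _)
    omega

theorem wt_iff {PQ S7 A s n : ℕ} : wt PQ S7 A s n = true ↔
    S7.testBit s = true ∧ (∃ i, (Nat.land (pget PQ s) A).testBit i = true) ∧
      ∀ i, (Nat.land (pget PQ s) A).testBit i = true → n.testBit i = true := by
  unfold wt
  rw [force_eq, Bool.and_eq_true, Bool.and_eq_true, bit_eq, subm_iff, nz_iff]
  have : Nat.land (pget PQ s) A ≠ 0 ↔ ∃ i, (Nat.land (pget PQ s) A).testBit i = true := by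
    rw [land_ne_zero_iff]
    simp only [testBit_land', Bool.and_eq_true]
  rw [this]

theorem or_true_iff {a b : Bool} : or a b = true ↔ a = true ∨ b = true := by
  cases a <;> cases b <;> simp

theorem not_true_iff {a : Bool} : (not a) = true ↔ a ≠ true := by
  cases a <;> simp

/-- `wit5` holds as soon as some position works -/
theorem wit5_of {PQ c S7 A n s : ℕ} (hs : s < 6) (h : wt PQ S7 A s n = true)
    (h0 : ¬ (s = 0 ∧ c = 3)) : wit5 PQ c S7 A n = true := by
  unfold wit5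
  simp only [Bool.or_eq_true, Bool.and_eq_true]
  have : s = 0 ∨ s = 1 ∨ s = 2 ∨ s = 3 ∨ s = 4 ∨ s = 5 := by omega
  rcases this with h1 | h1 | h1 | h1 | h1 | h1 <;> subst h1
  · right; right; right; right; right
    refine ⟨h, ?_⟩
    rw [not_true_iff, ne_eq, beq_iff]
    exact fun hc => h0 ⟨rfl, hc⟩
  · left; exact h
  · right; left; exact h
  · right; right; left; exact h
  · right; right; right; left; exact h
  · right; right; right; right; left; exact h

theorem wit_of {PQ c S7 A r n s : ℕ} (hs : s < 7) (h : wt PQ S7 A s n = true)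
    (h0 : ¬ (s = 0 ∧ c = 3)) (h6 : ¬ (s = 6 ∧ r = 2)) : wit PQ c S7 A r n = true := by
  unfold wit
  rw [Bool.or_eq_true]
  by_cases hs6 : s = 6
  · subst hs6
    right
    rw [Bool.and_eq_true]
    refine ⟨h, ?_⟩
    rw [not_true_iff, ne_eq, beq_iff]
    exact fun hc => h6 ⟨rfl, hc⟩
  · left
    exact wit5_of (by omega) h h0

/-- key step: a semantic witness in the window, all of whose private neighbours are seen by `x`,
gives a mask witness.  `n` is a mask containing all positions seen by `x`. -/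
theorem wit_sem {j c r s n : ℕ} {x : ℕ} (hL : InvL m W S j c) (hR : InvR m W S (j + 1) r)
    (hs : s < 7) (hS : 6 * j + s ∈ S) (hx : ∀ t, t < 7 → E m x (6 * j + t) → n.testBit t = true)
    (hz : ∃ t, t < 7 ∧ pn m W S (6 * j + s) (6 * j + t))
    (hall : ∀ z, pn m W S (6 * j + s) z → E m x z)
    (h0 : ¬ (s = 0 ∧ c = 3)) (h6 : ¬ (s = 6 ∧ r = 2)) :
    wit (pq m S j) c (win S j) (Av c (win W j) r) r n = true := by
  refine wit_of hs ?_ h0 h6
  rw [wt_iff]
  refine ⟨(win_spec hs).mpr hS, ?_, ?_⟩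
  · obtain ⟨t, ht, hp⟩ := hz
    rcases P_compl hL hR hs hS ht hp with h | h | h
    · exact ⟨t, h⟩
    · exact absurd ⟨h.2.1, h.2.2⟩ h0
    · exact absurd ⟨h.2.1, h.2.2⟩ h6
  · intro i hi
    obtain ⟨hi7, hp⟩ := P_sound hL hR hs hS hi
    exact hx i hi7 (hall _ hp)

/-- the set of undominated window positions, soundness -/
theorem U_sound {j c r t : ℕ} (hL : InvL m W S j c) (hR : InvR m W S (j + 1) r)
    (h : (Nat.land (pget (pq m S j) 7) (Av c (win W j) r)).testBit t = true) :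
    t < 7 ∧ und m W S (6 * j + t) := by
  have ht := lt7_land_left (pget_lt _ _) h
  rw [testBit_land', Bool.and_eq_true] at h
  obtain ⟨h1, h2⟩ := A_sound hL hR ht h.2
  exact ⟨ht, (und_iff ht).mpr ⟨h1, h2, (pq_spec7 ht).mp h.1⟩⟩

/-- `V`-check at inner positions -/
theorem vx_of_VP (hV : VP m W S) {j c r x : ℕ} (hL : InvL m W S j c)
    (hR : InvR m W S (j + 1) r) (h1 : 1 ≤ x) (h5 : x ≤ 5) :
    vx (nw m j) (pq m S j) c (win W j) (win S j) r (Av c (win W j) r)
      (Nat.land (pget (pq m S j) 7) (Av c (win W j) r)) x = true := by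
  unfold vx
  rw [force_eq]
  simp only [Bool.or_eq_true, Bool.and_eq_true, not_true_iff, bit_eq, nz_iff, ne_eq]
  by_cases hxW : (win W j).testBit x = true
  swap
  · left; exact hxW
  by_cases hxS : (win S j).testBit x = true
  · right; left; exact hxS
  right; right
  by_cases hU : Nat.land (pget (nw m j) x) (Nat.land (pget (pq m S j) 7) (Av c (win W j) r)) = 0
  · left; exact fun hc => hc hU
  right
  have hx7 : x < 7 := by omega
  rw [win_spec hx7] at hxW hxS
  rw [← ne_eq, land_ne_zero_iff] at hU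
  obtain ⟨i, hi1, hi2⟩ := hU
  obtain ⟨hi7, hund⟩ := U_sound hL hR hi2
  obtain ⟨s, hsS, ⟨z0, hz0⟩, hall⟩ := hV (6 * j + x) hxW hxS
    ⟨6 * j + i, (E_win hx7 hi7).mpr hi1, hund⟩
  have hxz : ∀ z, pn m W S s z → ∃ t, t < 7 ∧ z = 6 * j + t ∧
      (pget (nw m j) x).testBit t = true := fun z hz =>
    E_inner h1 h5 (E_symm (hall z hz))
  obtain ⟨t0, ht0, rfl, hb0⟩ := hxz z0 hz0
  rcases E_cases ht0 hz0.2.1 with ⟨s', hs', rfl, hbs⟩ | ⟨h4, h6⟩ | ⟨h4, h6⟩
  · -- witness in the window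
    left
    refine wit_sem (x := 6 * j + x) hL hR hs' hsS (fun t ht h => (E_win hx7 ht).mp h)
      ⟨t0, ht0, hz0⟩ hall ?_ ?_
    · rintro ⟨rfl, hc⟩
      obtain ⟨z, hz, hp⟩ := hL.e hc
      obtain ⟨t, _, ht', _⟩ := hxz z hp
      omega
    · rintro ⟨rfl, hc⟩
      obtain ⟨z, hz, hp⟩ := hR.e hsS hc
      obtain ⟨t, _, ht', _⟩ := hxz z hp
      omega
  · -- witness on the left
    subst h4
    right; left
    have hnS : 6 * j ∉ S := by
      intro hc
      have := hz0.2.2 (6 * j) hc (E_refl _ _)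
      omega
    refine ⟨hb0, ?_, ?_⟩
    · rw [not_not, land_eq_zero_iff]
      intro i hi
      have hi7 := lt7_of_testBit (pget_lt _ _) hi
      by_contra hc
      have hiS : 6 * j + i ∈ S := (win_spec hi7).mp (by simpa using hc)
      have := hz0.2.2 _ hiS ((E_win hi7 (by norm_num)).mpr (by
        rw [nw_sym hi7 (by norm_num)]; exact hi))
      omega
    · refine hL.f hz0.1 hnS s hsS h6 hz0.2.1 (fun u hu _ hE => hz0.2.2 u hu hE) ?_
      intro z hz
      obtain ⟨t, _, ht', _⟩ := hxz z hz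
      have := E_left hz.2.1 h6
      omega
  · -- witness on the right
    subst h4
    right; right
    have hnS : 6 * (j + 1) ∉ S := by
      intro hc
      have := hz0.2.2 (6 * (j + 1)) hc (E_refl _ _)
      omega
    refine ⟨hb0, (win_spec (by norm_num)).mpr hz0.1, ?_, ?_⟩
    · rw [not_not, land_eq_zero_iff]
      intro i hi
      have hi7 := lt7_of_testBit (pget_lt _ _) hi
      by_contra hc
      have hiS : 6 * j + i ∈ S := (win_spec hi7).mp (by simpa using hc)
      have := hz0.2.2 _ hiS ((E_win hi7 (by norm_num)).mpr (by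
        rw [nw_sym hi7 (by norm_num)]; exact hi))
      omega
    · rw [beq_iff]
      refine hR.f hz0.1 hnS s hsS h6 hz0.2.1 (fun u hu _ hE => hz0.2.2 u hu hE) ?_
      intro z hz
      obtain ⟨t, _, ht', _⟩ := hxz z hz
      have := E_right hz.2.1 h6
      omega

/-- `V`-check at the left port -/
theorem v0_of_VP (hV : VP m W S) {j c r : ℕ} (hL : InvL m W S j c)
    (hR : InvR m W S (j + 1) r) :
    v0 (nw m j) (pq m S j) c (win S j) r (Av c (win W j) r)
      (Nat.land (pget (pq m S j) 7) (Av c (win W j) r)) = true := by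
  unfold v0
  simp only [Bool.or_eq_true, Bool.and_eq_true, not_true_iff, bit_eq, nz_iff, ne_eq]
  by_cases hc3 : c ≤ 3
  · left; exact Nat.ble_eq.mpr hc3
  right
  have hW : 6 * j ∈ W := by
    by_contra hc; have := hL.absent hc; omega
  have hnS : 6 * j ∉ S := by
    intro hc; have := hL.inS hc; omega
  by_cases hU : ¬ Nat.testBit 18720 c = true ∧
    ¬¬ Nat.land (pget (nw m j) 0) (Nat.land (pget (pq m S j) 7) (Av c (win W j) r)) = 0
  · left; exact hU
  right
  have hex : ∃ z, E m (6 * j) z ∧ und m W S z := by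
    by_cases ht : Nat.testBit 18720 c = true
    · exact hL.t ht
    · have hU' : Nat.land (pget (nw m j) 0)
          (Nat.land (pget (pq m S j) 7) (Av c (win W j) r)) ≠ 0 := by
        intro h; exact hU ⟨ht, fun hc => hc h⟩
      rw [land_ne_zero_iff] at hU'
      obtain ⟨i, hi1, hi2⟩ := hU'
      obtain ⟨hi7, hund⟩ := U_sound hL hR hi2
      exact ⟨6 * j + i, (E_win (t := 0) (by norm_num) hi7).mpr hi1, hund⟩
  obtain ⟨s, hsS, ⟨z0, hz0⟩, hall⟩ := hV (6 * j) hW hnS hex
  rcases lt_trichotomy s (6 * j) with hlt | heq | hgt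
  · -- left witness
    by_cases hz : ∃ z, pn m W S s z ∧ z ≠ 6 * j
    · left
      exact hL.w hW hnS s hsS hlt hz (fun z hz _ => hall z hz)
    · push Not at hz
      right; right
      have hz0' := hz z0 hz0
      subst hz0'
      refine ⟨?_, ?_⟩
      · rw [not_not, land_eq_zero_iff]
        intro i hi
        have hi7 := lt7_of_testBit (pget_lt _ _) hi
        by_contra hc
        have hiS : 6 * j + i ∈ S := (win_spec hi7).mp (by simpa using hc)
        have := hz0.2.2 _ hiS ((E_win (s := 0) hi7 (by norm_num)).mpr (by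
          rw [nw_sym hi7 (by norm_num)]; exact hi))
        omega
      · exact hL.f hW hnS s hsS hlt hz0.2.1 (fun u hu _ hE => hz0.2.2 u hu hE) hz
  · exact absurd (heq ▸ hsS) hnS
  · -- witness in the window
    have hz0r : 6 * j ≤ z0 := E_right hz0.2.1 hgt
    have hE0 := hall z0 hz0
    obtain ⟨t0, ht0, hz0t, hb0⟩ : ∃ t, t < 7 ∧ z0 = 6 * j + t ∧
        (pget (nw m j) 0).testBit t = true := by
      rcases E_cases (j := j) (t := 0) (by norm_num) (E_symm hE0) with h | h | h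
      · exact h
      · omega
      · omega
    subst hz0t
    have hne6 : t0 ≠ 6 := by
      rintro rfl
      rw [nw_06] at hb0
      exact absurd hb0 (by simp)
    rcases E_cases ht0 hz0.2.1 with ⟨s', hs', rfl, hbs⟩ | ⟨h4, h6⟩ | ⟨h4, h6⟩
    · right; left
      refine wit_sem (x := 6 * j) hL hR hs' hsS (fun t ht h => ?_) ⟨t0, ht0, hz0⟩ hall ?_ ?_
      · exact (E_win (t := 0) (by norm_num) ht).mp h
      · rintro ⟨rfl, _⟩; omega
      · rintro ⟨rfl, hc⟩
        obtain ⟨z, hz, hp⟩ := hR.e hsS hc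
        have h7 := hall z hp
        rcases E_cases (j := j) (t := 0) (by norm_num) (E_symm h7) with ⟨i, hi, hi', _⟩ | h | h
        · omega
        · omega
        · omega
    · omega
    · omega

/-- the vertex condition implies the local check -/
theorem cf_of_VP (hV : VP m W S) {j c r : ℕ} (hL : InvL m W S j c)
    (hR : InvR m W S (j + 1) r) :
    cf (nw m j) (pq m S j) c (win W j) (win S j) r = true := by
  unfold cf
  rw [force_eq, force_eq]
  simp only [Bool.and_eq_true]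
  exact ⟨vx_of_VP hV hL hR (by norm_num) (by norm_num), vx_of_VP hV hL hR (by norm_num) (by norm_num),
    vx_of_VP hV hL hR (by norm_num) (by norm_num), vx_of_VP hV hL hR (by norm_num) (by norm_num),
    vx_of_VP hV hL hR (by norm_num) (by norm_num), v0_of_VP hV hL hR⟩

end Pool.Agent.H80.IRG
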