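import Pool.Agent.H80.IRG.Cost
import Pool.Agent.H80.IRG.Chk

set_option autoImplicit false

/-! The transfer argument: an induced subgraph missing a port has a dominating set which is not
larger than any of its maximal irredundant sets. -/

namespace Pool.Agent.H80.IRG

section defs
variable (m : ℕ) (W S : Finset ℕ)

open Classical in
noncomputable def cd : ℕ → ℕ
  | 0 => if 0 ∈ W then (if 0 ∈ S then 1 else 4) else 0
  | j + 1 => lf (nw m j) (pq m S j) (cd j) (win W j) (win S j)

noncomputable def rr : ℕ → ℕ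
  | 0 => 0
  | k + 1 => rf (nw m (m - k)) (pq m S (m - k)) (win W (m - k)) (win S (m - k)) (rr k)

noncomputable def rho (j : ℕ) : ℕ := rr m W S (m + 1 - j)

/-- the table entry is valid at port `j` -/
def Good (tb j : ℕ) : Prop :=
  tv tb (cd m W S j) (rho m W S j) ≠ 63 ∧ Vec m W S j (tv tb (cd m W S j) (rho m W S j))

end defs

variable {m : ℕ} {W S : Finset ℕ}

theorem rho_step {j : ℕ} (hj : j ≤ m) : rho m W S j =
    rf (nw m j) (pq m S j) (win W j) (win S j) (rho m W S (j + 1)) := by
  unfold rho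
  rw [show m + 1 - j = (m - j) + 1 by omega, show m + 1 - (j + 1) = m - j by omega]
  show rf (nw m (m - (m - j))) _ _ _ _ = _
  rw [show m - (m - j) = j by omega]

theorem rho_last : rho m W S (m + 1) = 0 := by
  unfold rho
  rw [Nat.sub_self]; rfl

theorem invR_all (hW : W ⊆ Finset.range (6 * m + 7)) (hS : S ⊆ W) :
    ∀ k ≤ m + 1, InvR m W S (m + 1 - k) (rr m W S k) := by
  intro k
  induction k with
  | zero =>
    intro _
    have hn : ¬ RS m S (m + 1) := by
      rintro ⟨u, hu, hlt, _⟩
      have := hW (hS hu)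
      rw [Finset.mem_range] at this
      omega
    refine ⟨by show 0 < 3; norm_num, fun _ => rfl, fun _ _ => hn, fun _ _ => Or.inl rfl,
      fun _ h => ?_, ?_⟩
    · exact absurd h (by show (0 : ℕ) ≠ 2; norm_num)
    · intro _ _ s hs hlt hE _ _
      exact absurd ⟨s, hs, hlt, hE⟩ hn
  | succ k ih =>
    intro hk
    have h1 := ih (by omega)
    rw [show m + 1 - k = (m - k) + 1 by omega] at h1
    rw [show m + 1 - (k + 1) = m - k by omega]
    exact rf_inv hS h1

theorem invR (hW : W ⊆ Finset.range (6 * m + 7)) (hS : S ⊆ W) {j : ℕ} (hj : j ≤ m + 1) :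
    InvR m W S j (rho m W S j) := by
  have := invR_all (m := m) hW hS (m + 1 - j) (by omega)
  rw [show m + 1 - (m + 1 - j) = j by omega] at this
  exact this

theorem cd_zero_cases : (0 ∉ W ∧ cd m W S 0 = 0) ∨ (0 ∈ W ∧ 0 ∈ S ∧ cd m W S 0 = 1) ∨
    (0 ∈ W ∧ 0 ∉ S ∧ cd m W S 0 = 4) := by
  unfold cd
  by_cases h : 0 ∈ W
  · by_cases h' : 0 ∈ S
    · right; left; exact ⟨h, h', by rw [if_pos h, if_pos h']⟩
    · right; right; exact ⟨h, h', by rw [if_pos h, if_neg h']⟩
  · left; exact ⟨h, by rw [if_neg h]⟩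

theorem invL_zero (hS : S ⊆ W) : InvL m W S 0 (cd m W S 0) := by
  have hn : ¬ LS m S 0 := by
    rintro ⟨u, hu, hlt, _⟩
    omega
  rcases cd_zero_cases (m := m) (W := W) (S := S) with ⟨h1, h2⟩ | ⟨h1, h2, h3⟩ | ⟨h1, h2, h3⟩
  · rw [h2]
    have h1' : 6 * 0 ∉ W := h1
    exact ⟨fun _ => rfl, fun h => absurd (hS h) h1', fun h => absurd h h1',
      fun h => absurd h (by decide), fun h => absurd h h1', fun h => absurd h (by norm_num),
      fun h => absurd h h1', fun h => absurd h (by decide), fun h => absurd h h1'⟩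
  · rw [h3]
    have h1' : 6 * 0 ∈ W := h1
    have h2' : 6 * 0 ∈ S := h2
    exact ⟨fun h => absurd h1' h, fun _ => Or.inl rfl, fun _ h => absurd h2' h,
      fun _ => ⟨h1', hn⟩, fun _ _ => Or.inl (by decide), fun h => absurd h (by norm_num),
      fun _ h => absurd h2' h, fun h => absurd h (by decide), fun _ h => absurd h2' h⟩
  · rw [h3]
    have h1' : 6 * 0 ∈ W := h1
    have h2' : 6 * 0 ∉ S := h2
    refine ⟨fun h => absurd h1' h, fun h => absurd h h2', fun _ _ => ⟨le_refl _, by norm_num⟩,
      fun _ => ⟨h1', hn⟩, fun _ _ => Or.inl (by decide), fun h => absurd h (by norm_num),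
      ?_, fun h => absurd h (by decide), ?_⟩
    · intro _ _ s _ hlt; omega
    · intro _ _ s _ hlt; omega

theorem invL (hS : S ⊆ W) (j : ℕ) : InvL m W S j (cd m W S j) := by
  induction j with
  | zero => exact invL_zero hS
  | succ j ih => exact lf_inv hS ih

theorem rloop_inv {j r : ℕ} (hR : InvR m W S (j + 1) r) {f : ℕ → Bool}
    (h : rloop (win W j) f = true) : f r = true := by
  unfold rloop at h
  rw [cond_eq_ite, bit_eq] at h
  by_cases hW : 6 * (j + 1) ∈ W
  · rw [if_pos (w6.mpr hW)] at h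
    simp only [Bool.and_eq_true] at h
    have := hR.lt3
    have h3 : r = 0 ∨ r = 1 ∨ r = 2 := by omega
    rcases h3 with rfl | rfl | rfl
    · exact h.1
    · exact h.2.1
    · exact h.2.2
  · rw [if_neg (fun hc => hW (w6.mp hc))] at h
    rw [hR.absent hW]; exact h

theorem cloop_inv {j c : ℕ} (hS : S ⊆ W) (hL : InvL m W S j c) {f : ℕ → Bool}
    (h : cloop (win W j) (win S j) f = true) : f c = true := by
  unfold cloop at h
  rw [cond_eq_ite, bit_eq] at h
  by_cases hW : 6 * j ∈ W
  · rw [if_pos (w0.mpr hW), cond_eq_ite, bit_eq] at h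
    by_cases hSj : 6 * j ∈ S
    · rw [if_pos (w0.mpr hSj)] at h
      simp only [Bool.and_eq_true] at h
      rcases hL.inS hSj with rfl | rfl | rfl
      · exact h.1
      · exact h.2.1
      · exact h.2.2
    · rw [if_neg (fun hc => hSj (w0.mp hc))] at h
      simp only [Bool.and_eq_true] at h
      obtain ⟨h4, h5, h6, h7, h8, h9, h10, h11, h12, h13, h14, h15⟩ := h
      obtain ⟨ha, hb⟩ := hL.inN hW hSj
      interval_cases c
      · exact h4
      · exact h5
      · exact h6
      · exact h7
      · exact h8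
      · exact h9
      · exact h10
      · exact h11
      · exact h12
      · exact h13
      · exact h14
      · exact h15
  · rw [if_neg (fun hc => hW (w0.mp hc))] at h
    rw [hL.absent hW]; exact h

theorem subm_win (hS : S ⊆ W) (j : ℕ) : subm (win S j) (win W j) = true := by
  rw [subm_iff]
  intro i hi
  have hi7 := lt7_of_testBit (win_lt _ _) hi
  exact (win_spec hi7).mpr (hS ((win_spec hi7).mp hi))

theorem or_not_left {a b : Bool} (h : or (not a) b = true) (ha : a = true) : b = true := by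
  rw [ha] at h; exact h

theorem step_gen {T tin tout tin' tout' : ℕ} {j : ℕ} (hT : ty m j = T) (hj : j ≤ m)
    (hW : W ⊆ Finset.range (6 * m + 7)) (hS : S ⊆ W) (hV : VP m W S)
    (h : allB 128 (fun s => chkS (NN T) (dT T) tin tout tin' tout' s) = true) :
    okp (dT T) (win W j) (pop7 (Nat.land (win S j) 126)) tin tout (cd m W S j) (rho m W S j)
      (cd m W S (j + 1)) (rho m W S (j + 1)) = true ∧
    okp (dT T) (win W j) (pop7 (Nat.land (win S j) 126)) tin' tout' (cd m W S j) (rho m W S j)
      (cd m W S (j + 1)) (rho m W S (j + 1)) = true := by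
  have hL := invL (m := m) hS j
  have hR := invR hW hS (j := j + 1) (by omega)
  have h1 := allB_spec h (win S j) (win_lt _ _)
  unfold chkS at h1
  have h2 := or_not_left (allB_spec (unforce h1) (win W j) (win_lt _ _)) (subm_win hS j)
  have h3 := rloop_inv hR (cloop_inv hS hL h2)
  unfold chk1 at h3
  have hN : NN T = nw m j := by unfold nw; rw [hT]
  rw [hN] at h3
  have h4 := or_not_left h3 (cf_of_VP hV hL hR)
  simp only [force_eq, Bool.and_eq_true] at h4
  rw [rho_step hj]
  exact h4

theorem okp_sound {tin tout c ρ c' r j : ℕ}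
    (h : okp (dT (ty m j)) (win W j) (pop7 (Nat.land (win S j) 126)) tin tout c ρ c' r = true)
    (hne : tv tin c ρ ≠ 63) (hv : Vec m W S j (tv tin c ρ)) :
    (if c' = 0 then tv tbR 0 0 else tv tout c' r) ≠ 63 ∧
      Vec m W S (j + 1) (if c' = 0 then tv tbR 0 0 else tv tout c' r) := by
  unfold okp at h
  simp only [force_eq, or_true_iff, beq_iff, cond_eq_ite] at h
  rcases h with h | h
  · exact absurd h hne
  · exact okc_sound hv h

theorem cd_succ_ne {j : ℕ} (hW : 6 * (j + 1) ∈ W) (hS : S ⊆ W) : cd m W S (j + 1) ≠ 0 := by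
  have hL := invL (m := m) hS (j + 1)
  by_cases h : 6 * (j + 1) ∈ S
  · have := hL.inS h; omega
  · have := hL.inN hW h; omega

theorem good_step {T tin tout : ℕ} {j : ℕ} (hj : j < m)
    (hW : W ⊆ Finset.range (6 * m + 7)) (hS : S ⊆ W)
    (hT : ty m j = T)
    (h : okp (dT T) (win W j) (pop7 (Nat.land (win S j) 126)) tin tout (cd m W S j) (rho m W S j)
      (cd m W S (j + 1)) (rho m W S (j + 1)) = true)
    (hg : Good m W S tin j) :
    (6 * (j + 1) ∈ W → Good m W S tout (j + 1)) ∧ (6 * (j + 1) ∉ W → Good m W S tbR (j + 1)) := by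
  subst hT
  have h1 := okp_sound h hg.1 hg.2
  constructor
  · intro hW'
    rw [if_neg (cd_succ_ne hW' hS)] at h1
    exact h1
  · intro hW'
    have hc : cd m W S (j + 1) = 0 := (invL (m := m) hS (j + 1)).absent hW'
    have hr : rho m W S (j + 1) = 0 := (invR hW hS (by omega)).absent hW'
    rw [if_pos hc] at h1
    unfold Good
    rw [hc, hr]
    exact h1

theorem good_zero (hW : W ⊆ Finset.range (6 * m + 7)) (hS : S ⊆ W) : Good m W S tb0 0 := by
  have hR := invR hW hS (j := 0) (by omega)
  have hr3 := hR.lt3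
  have hcost0 : ∀ a, 1 ≤ a → Cost m W S 0 0 a := fun a ha =>
    ⟨∅, Finset.empty_subset _, fun d hd => absurd hd (Finset.notMem_empty _),
      fun z _ hz => by omega, fun h => absurd h (by norm_num), fun h => absurd h (by norm_num), by
        rw [Finset.card_empty]; omega⟩
  rcases cd_zero_cases (m := m) (W := W) (S := S) with ⟨h1, h2⟩ | ⟨h1, h2, h3⟩ | ⟨h1, h2, h3⟩
  · have hr : rho m W S 0 = 0 := hR.absent h1
    unfold Good
    rw [h2, hr]
    refine ⟨by decide, ?_⟩
    intro o ho hne
    have : o = 0 ∨ o = 1 ∨ o = 2 := by omega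
    rcases this with rfl | rfl | rfl
    · exact hcost0 _ (by decide)
    · refine ⟨∅, Finset.empty_subset _, fun d hd => absurd hd (Finset.notMem_empty _),
        fun z _ hz => by omega, fun _ h => absurd h h1, fun h => absurd h (by norm_num), ?_⟩
      rw [Finset.card_empty]
      have : comp (tv tb0 0 0) 1 = 1 := by decide
      omega
    · exact absurd (by decide) hne
  · have hsub : ({0} : Finset ℕ) ⊆ W := by simpa using h1
    have hcard : 1 ≤ (S.filter (fun x => x ≤ 6 * 0)).card := by
      rw [Nat.one_le_iff_ne_zero, Finset.card_ne_zero]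
      exact ⟨0, by rw [Finset.mem_filter]; exact ⟨h2, by norm_num⟩⟩
    have hall : ∀ r < 3, tv tb0 1 r ≠ 63 ∧ comp (tv tb0 1 r) 1 = 1 ∧ comp (tv tb0 1 r) 2 = 1 := by
      decide
    obtain ⟨ha, hb, hc⟩ := hall _ hr3
    unfold Good
    rw [h3]
    refine ⟨ha, ?_⟩
    intro o ho hne
    have : o = 0 ∨ o = 1 ∨ o = 2 := by omega
    rcases this with rfl | rfl | rfl
    · refine ⟨∅, Finset.empty_subset _, fun d hd => absurd hd (Finset.notMem_empty _),
        fun z _ hz => by omega, fun h => absurd h (by norm_num),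
        fun h => absurd h (by norm_num), ?_⟩
      rw [Finset.card_empty]; omega
    · refine ⟨{0}, hsub, fun d hd => by simp at hd; omega, fun z _ hz => by omega,
        fun _ _ => ⟨0, by simp, E_refl _ _⟩, fun h => absurd h (by norm_num), ?_⟩
      rw [Finset.card_singleton]; omega
    · refine ⟨{0}, hsub, fun d hd => by simp at hd; omega, fun z _ hz => by omega,
        fun _ _ => ⟨0, by simp, E_refl _ _⟩, fun _ => by simp, ?_⟩
      rw [Finset.card_singleton]; omega
  · have hsub : ({0} : Finset ℕ) ⊆ W := by simpa using h1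
    have hall : ∀ r < 3, tv tb0 4 r ≠ 63 ∧ comp (tv tb0 4 r) 0 = 1 ∧ comp (tv tb0 4 r) 1 = 2 ∧
        comp (tv tb0 4 r) 2 = 2 := by
      decide
    obtain ⟨ha, hb0, hb, hc⟩ := hall _ hr3
    unfold Good
    rw [h3]
    refine ⟨ha, ?_⟩
    intro o ho hne
    have : o = 0 ∨ o = 1 ∨ o = 2 := by omega
    rcases this with rfl | rfl | rfl
    · exact hcost0 _ (by omega)
    · refine ⟨{0}, hsub, fun d hd => by simp at hd; omega, fun z _ hz => by omega,
        fun _ _ => ⟨0, by simp, E_refl _ _⟩, fun h => absurd h (by norm_num), ?_⟩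
      rw [Finset.card_singleton]; omega
    · refine ⟨{0}, hsub, fun d hd => by simp at hd; omega, fun z _ hz => by omega,
        fun _ _ => ⟨0, by simp, E_refl _ _⟩, fun _ => by simp, ?_⟩
      rw [Finset.card_singleton]; omega

theorem good_all (hW : W ⊆ Finset.range (6 * m + 7)) (hS : S ⊆ W) (hV : VP m W S) :
    ∀ j, 1 ≤ j → j ≤ m → (Good m W S tbL j ∨ Good m W S tbR j) ∧
      ((∃ i, 1 ≤ i ∧ i ≤ j ∧ 6 * i ∉ W) → Good m W S tbR j) := by
  intro j h1
  induction j, h1 using Nat.le_induction with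
  | base =>
    intro hj
    have hty : ty m 0 = 0 := by unfold ty; rw [if_pos rfl]
    have h := step_gen (j := 0) hty (by omega) hW hS hV (unforce (unforce chk_sta))
    have h2 := good_step (j := 0) (by omega) hW hS hty h.1 (good_zero hW hS)
    by_cases hp : 6 * (0 + 1) ∈ W
    · refine ⟨Or.inl (h2.1 hp), ?_⟩
      rintro ⟨i, hi1, hi2, hi⟩
      have : i = 1 := by omega
      subst this
      exact absurd hp hi
    · exact ⟨Or.inr (h2.2 hp), fun _ => h2.2 hp⟩
  | succ j hj1 ih =>
    intro hj
    obtain ⟨ih1, ih2⟩ := ih (by omega)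
    have hty : ty m j = 1 := by
      unfold ty; rw [if_neg (by omega), if_neg (by omega)]
    have h := step_gen (j := j) hty (by omega) hW hS hV (unforce (unforce chk_mid))
    have hR : Good m W S tbR j → Good m W S tbR (j + 1) := by
      intro hg
      have h2 := good_step (by omega) hW hS hty h.1 hg
      by_cases hp : 6 * (j + 1) ∈ W
      · exact h2.1 hp
      · exact h2.2 hp
    constructor
    · rcases ih1 with hg | hg
      · have h2 := good_step (by omega) hW hS hty h.2 hg
        by_cases hp : 6 * (j + 1) ∈ W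
        · exact Or.inl (h2.1 hp)
        · exact Or.inr (h2.2 hp)
      · exact Or.inr (hR hg)
    · rintro ⟨i, hi1, hi2, hi⟩
      by_cases hij : i ≤ j
      · exact hR (ih2 ⟨i, hi1, hij, hi⟩)
      · have : i = j + 1 := by omega
        subst this
        rcases ih1 with hg | hg
        · exact (good_step (by omega) hW hS hty h.2 hg).2 hi
        · exact (good_step (by omega) hW hS hty h.1 hg).2 hi

theorem vg_iff {c : ℕ} (h : c ≤ 3 ∨ (¬ Nat.testBit 112 c = true ∧ ¬ Nat.testBit 18720 c = true) ∨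
    Nat.testBit 37440 c = true ∨ Nat.testBit 7168 c = true) : vg c = true := by
  unfold vg
  simp only [or_true_iff, Bool.and_eq_true, not_true_iff, bit_eq, ne_eq]
  rcases h with h | h | h | h
  · exact Or.inl (Nat.ble_eq.mpr h)
  · exact Or.inr (Or.inl h)
  · exact Or.inr (Or.inr (Or.inl h))
  · exact Or.inr (Or.inr (Or.inr h))

theorem vg_of_VP (hW : W ⊆ Finset.range (6 * m + 7)) (hS : S ⊆ W) (hV : VP m W S) {c : ℕ}
    (hL : InvL m W S (m + 1) c) : vg c = true := by
  apply vg_iff
  by_cases hc3 : c ≤ 3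
  · exact Or.inl hc3
  right
  have hWg : 6 * (m + 1) ∈ W := by
    by_contra hc; have := hL.absent hc; omega
  have hnS : 6 * (m + 1) ∉ S := by
    intro hc; have := hL.inS hc; omega
  by_cases hU : ¬ Nat.testBit 112 c = true ∧ ¬ Nat.testBit 18720 c = true
  · exact Or.inl hU
  right
  have hmax : ∀ u ∈ W, u ≤ 6 * (m + 1) := by
    intro u hu
    have := Finset.mem_range.mp (hW hu)
    omega
  have hex : ∃ z, E m (6 * (m + 1)) z ∧ und m W S z := by
    by_cases ht : Nat.testBit 18720 c = true
    · exact hL.t ht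
    · have h112 : Nat.testBit 112 c = true := by
        by_contra hc; exact hU ⟨hc, ht⟩
      have h114 : Nat.testBit 114 c = true := by
        obtain ⟨ha, hb⟩ := hL.inN hWg hnS
        interval_cases c <;> revert h112 <;> decide
      obtain ⟨_, hLS⟩ := hL.av h114
      refine ⟨6 * (m + 1), E_refl _ _, hWg, ?_⟩
      intro u hu hE
      rcases lt_trichotomy u (6 * (m + 1)) with h | h | h
      · exact hLS ⟨u, hu, h, hE⟩
      · exact hnS (h ▸ hu)
      · have := hmax u (hS hu); omega
  obtain ⟨s, hsS, ⟨z0, hz0⟩, hall⟩ := hV _ hWg hnS hex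
  have hlt : s < 6 * (m + 1) := by
    have h1 := hmax s (hS hsS)
    have h2 : s ≠ 6 * (m + 1) := fun h => hnS (h ▸ hsS)
    omega
  by_cases hz : ∃ z, pn m W S s z ∧ z ≠ 6 * (m + 1)
  · left
    exact hL.w hWg hnS s hsS hlt hz (fun z hz _ => hall z hz)
  · push Not at hz
    right
    have hz0' := hz z0 hz0
    subst hz0'
    exact hL.f hWg hnS s hsS hlt hz0.2.1 (fun u hu _ hE => hz0.2.2 u hu hE) hz

/-- main result of the transfer argument -/
theorem dom_of_VP (hm : 1 ≤ m) (hW : W ⊆ Finset.range (6 * m + 7)) (hS : S ⊆ W)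
    (hV : VP m W S) (hcut : ∃ i, 1 ≤ i ∧ i ≤ m ∧ 6 * i ∉ W) :
    ∃ D : Finset ℕ, D ⊆ W ∧ (∀ z ∈ W, ∃ d ∈ D, E m d z) ∧ D.card ≤ S.card := by
  have hg := (good_all hW hS hV m hm (le_refl _)).2 hcut
  have hty : ty m m = 2 := by
    unfold ty; rw [if_neg (by omega), if_pos rfl]
  have hL := invL (m := m) hS m
  have hR := invR hW hS (j := m + 1) (by omega)
  have h1 := allB_spec (unforce (unforce chk_end)) (win S m) (win_lt _ _)
  unfold chkE at h1
  have h2 := or_not_left (allB_spec (unforce h1) (win W m) (win_lt _ _)) (subm_win hS m)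
  have h3 := cloop_inv hS hL h2
  unfold chk2 at h3
  have hN : NN 2 = nw m m := by unfold nw; rw [hty]
  rw [hN] at h3
  have hcf := cf_of_VP hV hL hR
  rw [rho_last] at hcf
  have h4 := or_not_left h3 hcf
  simp only [force_eq] at h4
  have hrho : rf (nw m m) (PP (nw m m) (win S m)) (win W m) (win S m) 0 = rho m W S m := by
    rw [rho_step (le_refl _), rho_last]; rfl
  rw [hrho, or_true_iff, beq_iff] at h4
  rcases h4 with h4 | h4
  · exact absurd h4 hg.1
  have h5 := or_not_left h4 (vg_of_VP hW hS hV (lf_inv hS hL))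
  have hdT : dT2 = dT (ty m m) := by rw [hty]; rfl
  rw [hdT] at h5
  obtain ⟨D, d1, d2, d3, d4, d5, d6⟩ := okt_sound (by norm_num) hg.2 h5 (by norm_num)
  refine ⟨D, d1, ?_, ?_⟩
  · intro z hz
    have hz' := Finset.mem_range.mp (hW hz)
    by_cases h : z < 6 * (m + 1)
    · exact d3 z hz h
    · have : z = 6 * (m + 1) := by omega
      subst this
      exact d4 rfl hz
  · have := Finset.card_filter_le S (fun x => x ≤ 6 * (m + 1))
    omega

end Pool.Agent.H80.IRG
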