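import Pool.Agent.H80.IRG.Inv

set_option autoImplicit false

/-! The recursions `rf`, `lf` preserve the invariants. -/

namespace Pool.Agent.H80.IRG

variable {m : ℕ} {W S : Finset ℕ}

theorem cond_eq_ite {α : Type} (b : Bool) (x y : α) : cond b x y = if b = true then x else y := by
  cases b <;> simp

theorem inner_of_mid {W7 t : ℕ} (h : (Nat.land W7 62).testBit t = true) :
    W7.testBit t = true ∧ 1 ≤ t ∧ t ≤ 5 := by
  rw [mid_spec, Bool.and_eq_true, decide_eq_true_eq] at h
  exact h

theorem mid_of_inner {W7 t : ℕ} (h : W7.testBit t = true) (h1 : 1 ≤ t) (h5 : t ≤ 5) :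
    (Nat.land W7 62).testBit t = true := by
  rw [mid_spec, Bool.and_eq_true, decide_eq_true_eq]
  exact ⟨h, h1, h5⟩

theorem land62 {a : ℕ} : Nat.land a 62 ≠ 0 ↔ ∃ t, a.testBit t = true ∧ 1 ≤ t ∧ t ≤ 5 := by
  constructor
  · intro h
    have h' : Nat.land (Nat.land a 62) (Nat.land a 62) ≠ 0 := by
      rw [land_def (Nat.land a 62), Nat.and_self]; exact h
    rw [land_ne_zero_iff] at h'
    obtain ⟨i, hi, _⟩ := h'
    exact ⟨i, inner_of_mid hi⟩
  · rintro ⟨t, h, h1, h5⟩ h0
    have := mid_of_inner h h1 h5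
    rw [h0] at this
    simp at this

/-- left neighbours of the right port -/
theorem LS_iff {j : ℕ} : LS m S (j + 1) ↔
    ∃ i, 1 ≤ i ∧ i ≤ 5 ∧ 6 * j + i ∈ S ∧ (pget (nw m j) 6).testBit i = true := by
  constructor
  · rintro ⟨u, hu, hlt, hE⟩
    rcases E_cases (j := j) (t := 6) (by norm_num) (show E m u (6 * j + 6) from hE) with
      ⟨i, hi, rfl, hb⟩ | ⟨h4, h5⟩ | ⟨h4, h5⟩
    · have hi0 : i ≠ 0 := by
        rintro rfl
        rw [nw_60] at hb
        exact absurd hb (by simp)
      exact ⟨i, by omega, by omega, hu, hb⟩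
    · omega
    · omega
  · rintro ⟨i, h1, h5, hS, hb⟩
    refine ⟨6 * j + i, hS, by omega, ?_⟩
    exact (E_win (s := 6) (by omega) (by norm_num)).mpr (by
      rw [nw_sym (by omega) (by norm_num)]; exact hb)

/-- right neighbours of the left port -/
theorem RS_iff {j : ℕ} : RS m S j ↔
    ∃ i, 1 ≤ i ∧ i ≤ 5 ∧ 6 * j + i ∈ S ∧ (pget (nw m j) 0).testBit i = true := by
  constructor
  · rintro ⟨u, hu, hlt, hE⟩
    rcases E_cases (j := j) (t := 0) (by norm_num) (show E m u (6 * j + 0) from hE) with
      ⟨i, hi, rfl, hb⟩ | ⟨h4, h5⟩ | ⟨h4, h5⟩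
    · have hi6 : i ≠ 6 := by
        rintro rfl
        rw [nw_06] at hb
        exact absurd hb (by simp)
      exact ⟨i, by omega, by omega, hu, hb⟩
    · omega
    · omega
  · rintro ⟨i, h1, h5, hS, hb⟩
    refine ⟨6 * j + i, hS, by omega, ?_⟩
    exact (E_win (s := 0) (by omega) (by norm_num)).mpr (by
      rw [nw_sym (by omega) (by norm_num)]; exact hb)

theorem land_N6 {j : ℕ} (h6 : 6 * (j + 1) ∉ S) :
    Nat.land (pget (nw m j) 6) (win S j) = 0 ↔ ¬ LS m S (j + 1) := by
  rw [LS_iff, land_eq_zero_iff]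
  constructor
  · rintro h ⟨i, h1, h5, hS, hb⟩
    have := h i hb
    rw [(win_spec (by omega)).mpr hS] at this
    exact absurd this (by simp)
  · intro h i hb
    have hi7 := lt7_of_testBit (pget_lt _ _) hb
    by_contra hc
    have hiS : 6 * j + i ∈ S := (win_spec hi7).mp (by simpa using hc)
    have hi0 : i ≠ 0 := by
      rintro rfl
      rw [nw_60] at hb
      exact absurd hb (by simp)
    have hi6 : i ≠ 6 := by
      rintro rfl
      exact h6 hiS
    exact h ⟨i, by omega, by omega, hiS, hb⟩

theorem land_N0 {j : ℕ} (h0 : 6 * j ∉ S) :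
    Nat.land (pget (nw m j) 0) (win S j) = 0 ↔ ¬ RS m S j := by
  rw [RS_iff, land_eq_zero_iff]
  constructor
  · rintro h ⟨i, h1, h5, hS, hb⟩
    have := h i hb
    rw [(win_spec (by omega)).mpr hS] at this
    exact absurd this (by simp)
  · intro h i hb
    have hi7 := lt7_of_testBit (pget_lt _ _) hb
    by_contra hc
    have hiS : 6 * j + i ∈ S := (win_spec hi7).mp (by simpa using hc)
    have hi6 : i ≠ 6 := by
      rintro rfl
      rw [nw_06] at hb
      exact absurd hb (by simp)
    have hi0 : i ≠ 0 := by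
      rintro rfl
      exact h0 hiS
    exact h ⟨i, by omega, by omega, hiS, hb⟩

theorem land62_N {j p : ℕ} :
    Nat.land (Nat.land (pget (nw m j) p) (win S j)) 62 ≠ 0 ↔
    ∃ i, 1 ≤ i ∧ i ≤ 5 ∧ 6 * j + i ∈ S ∧ (pget (nw m j) p).testBit i = true := by
  rw [land62]
  constructor
  · rintro ⟨t, h, h1, h5⟩
    rw [testBit_land', Bool.and_eq_true] at h
    exact ⟨t, h1, h5, (win_spec (by omega)).mp h.2, h.1⟩
  · rintro ⟨t, h1, h5, h2, h3⟩
    refine ⟨t, ?_, h1, h5⟩
    rw [testBit_land', Bool.and_eq_true]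
    exact ⟨h3, (win_spec (by omega)).mpr h2⟩

/-- the mask used in `rf` -/
theorem rfA_eq (j r : ℕ) (W : Finset ℕ) : Nat.add (Nat.land (win W j) 62)
    (cond (Nat.beq r 0) (Nat.land (win W j) 64) 0) = Av 0 (win W j) r := by
  unfold Av
  have : bt 114 0 = 0 := by decide
  rw [this]
  show _ = Nat.add _ (0 + _)
  rw [Nat.zero_add]

theorem shl1 (s : ℕ) : Nat.shiftLeft 1 s = 2 ^ s := by
  rw [shl_def, Nat.one_shiftLeft]

theorem rf_absent {N PQ W7 S7 r : ℕ} (h : ¬ W7.testBit 0 = true) : rf N PQ W7 S7 r = 0 := by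
  unfold rf
  rw [cond_eq_ite, bit_eq, if_neg h]

theorem rf_S {N PQ W7 S7 r : ℕ} (h : W7.testBit 0 = true) (h' : S7.testBit 0 = true) :
    rf N PQ W7 S7 r = if Nat.land (Nat.land (pget PQ 0) W7) 62 ≠ 0 then 2 else
      if Nat.land (Nat.land (pget N 0) S7) 62 ≠ 0 then 1 else 0 := by
  unfold rf
  rw [cond_eq_ite, bit_eq, if_pos h, cond_eq_ite, bit_eq, if_pos h']
  simp only [cond_eq_ite, nz_iff]

theorem rf_N {N PQ W7 S7 r : ℕ} (h : W7.testBit 0 = true) (h' : ¬ S7.testBit 0 = true) :
    rf N PQ W7 S7 r = if Nat.land (pget N 0) S7 = 0 then 0 else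
      if Nat.land (pget N 0) S7 = 2 ^ (Nat.land (pget N 0) S7).log2 ∧
        Nat.land (pget PQ (Nat.land (pget N 0) S7).log2) (Nat.add (Nat.land W7 62)
            (cond (Nat.beq r 0) (Nat.land W7 64) 0)) = 0 then 1 else 2 := by
  unfold rf
  rw [cond_eq_ite, bit_eq, if_pos h, cond_eq_ite, bit_eq, if_neg h']
  simp only [force_eq, cond_eq_ite (α := ℕ) (Nat.beq (Nat.land (pget N 0) S7) 0), beq_iff]
  rw [cond_eq_ite]
  simp only [Bool.and_eq_true, beq_iff, shl1]

theorem w0 {A : Finset ℕ} {j : ℕ} : (win A j).testBit 0 = true ↔ 6 * j ∈ A :=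
  win_spec (by norm_num)

theorem w6 {A : Finset ℕ} {j : ℕ} : (win A j).testBit 6 = true ↔ 6 * (j + 1) ∈ A :=
  win_spec (by norm_num)

theorem priv62 {j s : ℕ} (hs : s < 7) (hS : 6 * j + s ∈ S)
    (h : Nat.land (Nat.land (pget (pq m S j) s) (win W j)) 62 ≠ 0) :
    ∃ t, 1 ≤ t ∧ t ≤ 5 ∧ pn m W S (6 * j + s) (6 * j + t) := by
  rw [land62] at h
  obtain ⟨t, h, h1, h5⟩ := h
  rw [testBit_land', Bool.and_eq_true] at h
  refine ⟨t, h1, h5, (pn_iff (by omega) hs hS).mpr ⟨(win_spec (by omega)).mp h.2,
    ext_inner h1 h5, (pq_spec (by omega) hs).mp h.1⟩⟩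

theorem rf_inv (hWS : S ⊆ W) {j r : ℕ} (hR : InvR m W S (j + 1) r) :
    InvR m W S j (rf (nw m j) (pq m S j) (win W j) (win S j) r) := by
  by_cases hW : 6 * j ∈ W
  swap
  · rw [rf_absent (fun h => hW (w0.mp h))]
    exact ⟨by norm_num, fun _ => rfl, fun h => absurd h hW, fun h => absurd h hW,
      fun h => absurd (hWS h) hW, fun h => absurd h hW⟩
  by_cases hS : 6 * j ∈ S
  · rw [rf_S (w0.mpr hW) (w0.mpr hS)]
    by_cases h1 : Nat.land (Nat.land (pget (pq m S j) 0) (win W j)) 62 ≠ 0
    · rw [if_pos h1]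
      obtain ⟨t, ht1, ht5, hp⟩ := priv62 (by norm_num) hS h1
      exact ⟨by norm_num, fun h => absurd hW h, fun _ h => by omega, fun _ _ => Or.inr ⟨hS, rfl⟩,
        fun _ _ => ⟨6 * j + t, by omega, hp⟩, fun _ h => absurd hS h⟩
    · rw [if_neg h1]
      by_cases h2 : Nat.land (Nat.land (pget (nw m j) 0) (win S j)) 62 ≠ 0
      · rw [if_pos h2]
        have hRS : RS m S j := RS_iff.mpr (land62_N.mp h2)
        exact ⟨by norm_num, fun h => absurd hW h, fun _ h => by omega, fun _ h => absurd hRS h,
          fun _ h => by omega, fun _ h => absurd hS h⟩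
      · rw [if_neg h2]
        have hRS : ¬ RS m S j := fun h => h2 (land62_N.mpr (RS_iff.mp h))
        exact ⟨by norm_num, fun h => absurd hW h, fun _ _ => hRS, fun _ _ => Or.inl rfl,
          fun _ h => by omega, fun _ h => absurd hS h⟩
  · rw [rf_N (w0.mpr hW) (fun h => hS (w0.mp h))]
    by_cases h1 : Nat.land (pget (nw m j) 0) (win S j) = 0
    · rw [if_pos h1]
      have hRS : ¬ RS m S j := (land_N0 hS).mp h1
      refine ⟨by norm_num, fun h => absurd hW h, fun _ _ => hRS, fun _ _ => Or.inl rfl,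
          fun h => absurd h hS, ?_⟩
      intro _ _ s hs hlt hE _ _
      exact absurd ⟨s, hs, hlt, hE⟩ hRS
    · rw [if_neg h1]
      have hRS : RS m S j := by
        by_contra hc; exact h1 ((land_N0 hS).mpr hc)
      by_cases h2 : Nat.land (pget (nw m j) 0) (win S j) =
          2 ^ (Nat.land (pget (nw m j) 0) (win S j)).log2 ∧
        Nat.land (pget (pq m S j) (Nat.land (pget (nw m j) 0) (win S j)).log2)
          (Nat.add (Nat.land (win W j) 62) (cond (Nat.beq r 0) (Nat.land (win W j) 64) 0)) = 0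
      · rw [if_pos h2]
        exact ⟨by norm_num, fun h => absurd hW h, fun _ h => by omega, fun _ h => absurd hRS h,
          fun h => absurd h hS, fun _ _ _ _ _ _ _ _ => rfl⟩
      · rw [if_neg h2]
        refine ⟨by norm_num, fun h => absurd hW h, fun _ h => by omega, fun _ h => absurd hRS h,
          fun h => absurd h hS, ?_⟩
        intro _ _ s hs hlt hE huniq hpriv
        exfalso
        apply h2
        rcases E_cases (j := j) (t := 0) (by norm_num) (show E m s (6 * j + 0) from hE) with
          ⟨i, hi, rfl, hb⟩ | ⟨h4, h5⟩ | ⟨h4, h5⟩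
        · have hM : Nat.land (pget (nw m j) 0) (win S j) = 2 ^ i := by
            rw [land_eq_pow_iff]
            intro i'
            constructor
            · rintro ⟨ha, hb'⟩
              have hi7 := lt7_of_testBit (pget_lt _ _) ha
              have hS' : 6 * j + i' ∈ S := (win_spec hi7).mp hb'
              have hi0 : i' ≠ 0 := by rintro rfl; exact hS hS'
              have := huniq _ hS' (by omega) ((E_win (s := 0) hi7 (by norm_num)).mpr (by
                rw [nw_sym hi7 (by norm_num)]; exact ha))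
              omega
            · rintro rfl
              exact ⟨hb, (win_spec hi).mpr hs⟩
          rw [hM, Nat.log2_two_pow]
          refine ⟨rfl, ?_⟩
          rw [rfA_eq, land_eq_zero_iff]
          intro t ht
          have ht7 := lt7_of_testBit (pget_lt _ _) ht
          by_contra hc
          have hc' : (Av 0 (win W j) r).testBit t = true := by simpa using hc
          have h114 : Nat.testBit 114 0 = false := by decide
          have hLfake : t ≠ 0 := by
            rintro rfl
            rw [av_spec (win_lt _ _) (by norm_num), if_pos rfl, h114] at hc'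
            exact absurd hc' (by simp)
          have hav : 6 * j + t ∈ W ∧ ¬ ext m S j t := by
            rw [av_spec (win_lt _ _) ht7, if_neg hLfake] at hc'
            by_cases h6 : t = 6
            · subst h6
              rw [if_pos rfl, Bool.and_eq_true, decide_eq_true_eq] at hc'
              refine ⟨(win_spec ht7).mp hc'.2, ?_⟩
              rintro (⟨h3, _⟩ | ⟨_, h3⟩)
              · omega
              · exact hR.av ((win_spec ht7).mp hc'.2) hc'.1 h3
            · rw [if_neg h6] at hc'
              exact ⟨(win_spec ht7).mp hc', ext_inner (by omega) (by omega)⟩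
          have hp : pn m W S (6 * j + i) (6 * j + t) :=
            (pn_iff ht7 hi hs).mpr ⟨hav.1, hav.2, (pq_spec ht7 hi).mp ht⟩
          have := hpriv _ hp
          omega
        · omega
        · omega

theorem lf_absent {N PQ c W7 S7 : ℕ} (h : ¬ W7.testBit 6 = true) : lf N PQ c W7 S7 = 0 := by
  unfold lf
  rw [cond_eq_ite, bit_eq, if_neg h]

theorem lf_S {N PQ c W7 S7 : ℕ} (h : W7.testBit 6 = true) (h' : S7.testBit 6 = true) :
    lf N PQ c W7 S7 = if Nat.land (Nat.land (pget PQ 6) W7) 62 ≠ 0 then 3 else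
      if Nat.land (Nat.land (pget N 6) S7) 62 ≠ 0 then 2 else 1 := by
  unfold lf
  rw [cond_eq_ite, bit_eq, if_pos h, cond_eq_ite, bit_eq, if_pos h']
  simp only [cond_eq_ite, nz_iff]

theorem lf_N {N PQ c W7 S7 : ℕ} (h : W7.testBit 6 = true) (h' : ¬ S7.testBit 6 = true) :
    lf N PQ c W7 S7 = 4 + (3 * lk N PQ S7 (Av c W7 1) + lt N PQ c W7 S7 (Av c W7 1)) := by
  unfold lf
  rw [cond_eq_ite, bit_eq, if_pos h, cond_eq_ite, bit_eq, if_neg h', force_eq]
  rfl

theorem lk_eq {N PQ S7 A : ℕ} : lk N PQ S7 A = if Nat.land (pget N 6) S7 = 0 then 0 else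
    if Nat.land (pget N 6) S7 = 2 ^ (Nat.land (pget N 6) S7).log2 then
      (if Nat.land (pget PQ (Nat.land (pget N 6) S7).log2) A = 0 then 2 else 1) else 3 := by
  unfold lk
  simp only [force_eq, cond_eq_ite, beq_iff, shl1]

theorem lt_eq {N PQ c W7 S7 A : ℕ} : lt N PQ c W7 S7 A =
    if wit5 PQ c S7 A (pget N 6) = true then 2 else
      if Nat.land (Nat.land (pget N 6) (pget PQ 7)) (Nat.land W7 62) ≠ 0 then 1 else 0 := by
  unfold lt
  simp only [cond_eq_ite, nz_iff]

theorem lk_le {N PQ S7 A : ℕ} : lk N PQ S7 A ≤ 3 := by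
  rw [lk_eq]; split_ifs <;> omega

theorem lt_le {N PQ c W7 S7 A : ℕ} : lt N PQ c W7 S7 A ≤ 2 := by
  rw [lt_eq]; split_ifs <;> omega

theorem code_114 {k t : ℕ} (hk : k ≤ 3) (ht : t ≤ 2) :
    Nat.testBit 114 (4 + (3 * k + t)) = true ↔ k = 0 := by
  interval_cases k <;> interval_cases t <;> decide

theorem code_7168 {k t : ℕ} (hk : k ≤ 3) (ht : t ≤ 2) :
    Nat.testBit 7168 (4 + (3 * k + t)) = true ↔ k = 2 := by
  interval_cases k <;> interval_cases t <;> decide

theorem code_18720 {k t : ℕ} (hk : k ≤ 3) (ht : t ≤ 2) :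
    Nat.testBit 18720 (4 + (3 * k + t)) = true ↔ t = 1 := by
  interval_cases k <;> interval_cases t <;> decide

theorem code_37440 {k t : ℕ} (hk : k ≤ 3) (ht : t ≤ 2) :
    Nat.testBit 37440 (4 + (3 * k + t)) = true ↔ t = 2 := by
  interval_cases k <;> interval_cases t <;> decide

/-- masked private set without the right port: soundness -/
theorem P1_sound {j c s t : ℕ} (hL : InvL m W S j c) (hs : s < 7)
    (hS : 6 * j + s ∈ S)
    (h : (Nat.land (pget (pq m S j) s) (Av c (win W j) 1)).testBit t = true) :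
    t < 6 ∧ pn m W S (6 * j + s) (6 * j + t) := by
  have ht := lt7_land_left (pget_lt _ _) h
  rw [testBit_land', Bool.and_eq_true] at h
  have h2 := h.2
  rw [av_spec (win_lt _ _) ht] at h2
  by_cases h0 : t = 0
  · subst h0
    rw [if_pos rfl] at h2
    obtain ⟨h3, h4⟩ := hL.av h2
    refine ⟨by norm_num, (pn_iff ht hs hS).mpr ⟨h3, ?_, (pq_spec ht hs).mp h.1⟩⟩
    rintro (⟨_, h5⟩ | ⟨h5, _⟩)
    · exact h4 h5
    · omega
  · rw [if_neg h0] at h2
    by_cases h6 : t = 6
    · subst h6
      rw [if_pos rfl] at h2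
      exact absurd h2 (by simp)
    · rw [if_neg h6] at h2
      exact ⟨by omega, (pn_iff ht hs hS).mpr ⟨(win_spec ht).mp h2,
        ext_inner (by omega) (by omega), (pq_spec ht hs).mp h.1⟩⟩

/-- inner private positions are in the mask -/
theorem P1_inner {j c s t : ℕ} (hs : s < 7) (hS : 6 * j + s ∈ S) (h1 : 1 ≤ t) (h5 : t ≤ 5)
    (h : pn m W S (6 * j + s) (6 * j + t)) :
    (Nat.land (pget (pq m S j) s) (Av c (win W j) 1)).testBit t = true := by
  have ht : t < 7 := by omega
  rw [pn_iff ht hs hS] at h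
  rw [testBit_land', Bool.and_eq_true, av_spec (win_lt _ _) ht, if_neg (by omega),
    if_neg (by omega)]
  exact ⟨(pq_spec ht hs).mpr h.2.2, (win_spec ht).mpr h.1⟩

theorem lf_inv (hWS : S ⊆ W) {j c : ℕ} (hL : InvL m W S j c) :
    InvL m W S (j + 1) (lf (nw m j) (pq m S j) c (win W j) (win S j)) := by
  by_cases hW : 6 * (j + 1) ∈ W
  swap
  · rw [lf_absent (fun h => hW (w6.mp h))]
    exact ⟨fun _ => rfl, fun h => absurd (hWS h) hW, fun h => absurd h hW,
      fun h => absurd h (by decide), fun h => absurd h hW, fun h => by omega,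
      fun h => absurd h hW, fun h => absurd h (by decide), fun h => absurd h hW⟩
  by_cases hS : 6 * (j + 1) ∈ S
  · rw [lf_S (w6.mpr hW) (w6.mpr hS)]
    by_cases h1 : Nat.land (Nat.land (pget (pq m S j) 6) (win W j)) 62 ≠ 0
    · rw [if_pos h1]
      obtain ⟨t, ht1, ht5, hp⟩ := priv62 (m := m) (W := W) (s := 6) (by norm_num) hS h1
      exact ⟨fun h => absurd hW h, fun _ => by omega, fun _ h => absurd hS h,
        fun h => absurd h (by decide), fun _ _ => Or.inr ⟨hS, rfl⟩,
        fun _ => ⟨6 * j + t, by omega, hp⟩, fun _ h => absurd hS h,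
        fun h => absurd h (by decide), fun _ h => absurd hS h⟩
    · rw [if_neg h1]
      by_cases h2 : Nat.land (Nat.land (pget (nw m j) 6) (win S j)) 62 ≠ 0
      · rw [if_pos h2]
        have hLS : LS m S (j + 1) := LS_iff.mpr (land62_N.mp h2)
        exact ⟨fun h => absurd hW h, fun _ => by omega, fun _ h => absurd hS h,
          fun h => absurd h (by decide), fun _ h => absurd hLS h,
          fun h => by omega, fun _ h => absurd hS h,
          fun h => absurd h (by decide), fun _ h => absurd hS h⟩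
      · rw [if_neg h2]
        have hLS : ¬ LS m S (j + 1) := fun h => h2 (land62_N.mpr (LS_iff.mp h))
        exact ⟨fun h => absurd hW h, fun _ => by omega, fun _ h => absurd hS h,
          fun _ => ⟨hW, hLS⟩, fun _ _ => Or.inl (by decide),
          fun h => by omega, fun _ h => absurd hS h,
          fun h => absurd h (by decide), fun _ h => absurd hS h⟩
  · rw [lf_N (w6.mpr hW) (fun h => hS (w6.mp h))]
    have hk := lk_le (N := nw m j) (PQ := pq m S j) (S7 := win S j) (A := Av c (win W j) 1)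
    have ht := lt_le (N := nw m j) (PQ := pq m S j) (c := c) (W7 := win W j) (S7 := win S j)
      (A := Av c (win W j) 1)
    have hk0 : lk (nw m j) (pq m S j) (win S j) (Av c (win W j) 1) = 0 ↔ ¬ LS m S (j + 1) := by
      rw [lk_eq, ← land_N6 hS]
      by_cases h : Nat.land (pget (nw m j) 6) (win S j) = 0
      · rw [if_pos h]; exact ⟨fun _ => h, fun _ => rfl⟩
      · rw [if_neg h]
        constructor
        · intro h2; split_ifs at h2
        · intro h2; exact absurd h2 h
    refine ⟨fun h => absurd hW h, fun h => absurd h hS, fun _ _ => by omega, ?_, ?_,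
      fun h => by omega, ?_, ?_, ?_⟩
    · intro h
      rw [code_114 hk ht, hk0] at h
      exact ⟨hW, h⟩
    · intro _ h
      left
      rw [code_114 hk ht, hk0]
      exact h
    · intro _ _ s hs hlt hE huniq hpriv
      rw [code_7168 hk ht, lk_eq]
      rcases E_cases (j := j) (t := 6) (by norm_num) (show E m s (6 * j + 6) from hE) with
          ⟨i, hi, rfl, hb⟩ | ⟨h4, h5⟩ | ⟨h4, h5⟩
      · have hM : Nat.land (pget (nw m j) 6) (win S j) = 2 ^ i := by
          rw [land_eq_pow_iff]
          intro i'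
          constructor
          · rintro ⟨ha, hb'⟩
            have hi7 := lt7_of_testBit (pget_lt _ _) ha
            have hS' : 6 * j + i' ∈ S := (win_spec hi7).mp hb'
            have hi6 : i' ≠ 6 := by rintro rfl; exact hS hS'
            have := huniq _ hS' (by omega) ((E_win (s := 6) hi7 (by norm_num)).mpr (by
              rw [nw_sym hi7 (by norm_num)]; exact ha))
            omega
          · rintro rfl
            exact ⟨hb, (win_spec hi).mpr hs⟩
        rw [hM, Nat.log2_two_pow]
        have hpos : (2 : ℕ) ^ i ≠ 0 := by positivity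
        rw [if_neg hpos, if_pos rfl, if_pos]
        rw [land_eq_zero_iff]
        intro t ht'
        by_contra hc
        have hc' : (Nat.land (pget (pq m S j) i) (Av c (win W j) 1)).testBit t = true := by
          rw [testBit_land', Bool.and_eq_true]
          exact ⟨ht', by simpa using hc⟩
        obtain ⟨ht6, hp⟩ := P1_sound hL hi hs hc'
        have := hpriv _ hp
        omega
      · omega
      · omega
    · intro h
      rw [code_18720 hk ht, lt_eq] at h
      by_cases h1 : wit5 (pq m S j) c (win S j) (Av c (win W j) 1) (pget (nw m j) 6) = true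
      · rw [if_pos h1] at h; omega
      · rw [if_neg h1] at h
        by_cases h2 : Nat.land (Nat.land (pget (nw m j) 6) (pget (pq m S j) 7))
            (Nat.land (win W j) 62) ≠ 0
        · rw [land_ne_zero_iff] at h2
          obtain ⟨i, h3, h4⟩ := h2
          rw [testBit_land', Bool.and_eq_true] at h3
          obtain ⟨h5, h6, h7⟩ := inner_of_mid h4
          have hi7 : i < 7 := by omega
          refine ⟨6 * j + i, (E_win (t := 6) (by norm_num) hi7).mpr h3.1, ?_⟩
          exact (und_iff hi7).mpr ⟨(win_spec hi7).mp h5, ext_inner h6 h7, (pq_spec7 hi7).mp h3.2⟩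
        · rw [if_neg h2] at h; omega
    · intro _ _ s hs hlt hex hall
      rw [code_37440 hk ht, lt_eq, if_pos]
      obtain ⟨z1, hz1, hne⟩ := hex
      have hz1lt : z1 < 6 * (j + 1) := by
        have := E_left hz1.2.1 hlt
        omega
      have hE1 := hall z1 hz1 hne
      -- every private neighbour other than the port is an inner vertex of the window
      have hin : ∀ z, pn m W S s z → z ≠ 6 * (j + 1) → ∃ t, 1 ≤ t ∧ t ≤ 5 ∧ z = 6 * j + t ∧
          (pget (nw m j) 6).testBit t = true := by
        intro z hz hne'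
        have hE2 := hall z hz hne'
        have hzlt : z < 6 * (j + 1) := by
          have := E_left hz.2.1 hlt
          omega
        rcases E_cases (j := j) (t := 6) (by norm_num)
          (show E m z (6 * j + 6) from E_symm hE2) with ⟨i, hi, rfl, hb⟩ | ⟨h4, h5⟩ | ⟨h4, h5⟩
        · have hi0 : i ≠ 0 := by
            rintro rfl
            rw [nw_60] at hb
            exact absurd hb (by simp)
          exact ⟨i, by omega, by omega, rfl, hb⟩
        · omega
        · omega
      obtain ⟨t1, ht1, ht5, rfl, hb1⟩ := hin z1 hz1 hne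
      obtain ⟨i, hi, rfl, _⟩ := E_inner ht1 ht5 hz1.2.1
      refine wit5_of (s := i) (by omega) ?_ ?_
      · rw [wt_iff]
        refine ⟨(win_spec hi).mpr hs, ⟨t1, P1_inner hi hs ht1 ht5 hz1⟩, ?_⟩
        intro t ht'
        obtain ⟨ht6, hp⟩ := P1_sound hL hi hs ht'
        obtain ⟨t2, _, _, h6, h7⟩ := hin _ hp (by omega)
        have : t2 = t := by omega
        rw [← this]; exact h7
      · rintro ⟨rfl, hc⟩
        obtain ⟨z, hz, hp⟩ := hL.e hc
        obtain ⟨t2, _, _, h6, _⟩ := hin z hp (by omega)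
        omega

end Pool.Agent.H80.IRG
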