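import Pool.Agent.H80.IRG.Bits

set_option autoImplicit false

/-! The family of graphs, private neighbours, and the semantic meaning of the window masks. -/

namespace Pool.Agent.H80.IRG

/-- type of window `j` -/
def ty (m j : ℕ) : ℕ := if j = 0 then 0 else if j = m then 2 else 1

theorem ty_lt (m j : ℕ) : ty m j < 3 := by
  unfold ty; split_ifs <;> omega

/-- packed neighbourhood word of window `j` -/
def nw (m j : ℕ) : ℕ := NN (ty m j)

/-- closed adjacency in the (infinite) graph -/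
def E (m x y : ℕ) : Prop :=
  ∃ j r s, r < 7 ∧ s < 7 ∧ x = 6 * j + r ∧ y = 6 * j + s ∧ (pget (nw m j) r).testBit s = true

theorem nw_sym {m j r s : ℕ} (hr : r < 7) (hs : s < 7) :
    (pget (nw m j) r).testBit s = (pget (nw m j) s).testBit r := nn_sym (ty_lt m j) hr hs

theorem nw_refl {m j r : ℕ} (hr : r < 7) : (pget (nw m j) r).testBit r = true :=
  nn_refl (ty_lt m j) hr

theorem nw_06 {m j : ℕ} : (pget (nw m j) 0).testBit 6 = false := nn_06 (ty_lt m j)

theorem nw_60 {m j : ℕ} : (pget (nw m j) 6).testBit 0 = false := by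
  rw [nw_sym (by norm_num) (by norm_num)]; exact nw_06

theorem E_symm {m x y : ℕ} (h : E m x y) : E m y x := by
  obtain ⟨j, r, s, hr, hs, hx, hy, hb⟩ := h
  exact ⟨j, s, r, hs, hr, hy, hx, by rw [nw_sym hs hr]; exact hb⟩

theorem E_refl (m x : ℕ) : E m x x :=
  ⟨x / 6, x % 6, x % 6, by omega, by omega, by omega, by omega, nw_refl (by omega)⟩

theorem E_win {m j t s : ℕ} (ht : t < 7) (hs : s < 7) :
    E m (6 * j + t) (6 * j + s) ↔ (pget (nw m j) t).testBit s = true := by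
  constructor
  · rintro ⟨j', r', s', hr', hs', hx, hy, hb⟩
    by_cases h : j' = j
    · subst h
      have h1 : r' = t := by omega
      have h2 : s' = s := by omega
      rw [h1, h2] at hb; exact hb
    · have h3 : t = s := by omega
      rw [h3]; exact nw_refl hs
  · intro h
    exact ⟨j, t, s, ht, hs, rfl, rfl, h⟩

/-- edges do not cross a port: left version -/
theorem E_left {m j x y : ℕ} (h : E m x y) (hx : x < 6 * j) : y ≤ 6 * j := by
  obtain ⟨j', r, s, hr, hs, hx', hy, hb⟩ := h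
  omega

theorem E_right {m j x y : ℕ} (h : E m x y) (hx : 6 * j < x) : 6 * j ≤ y := by
  obtain ⟨j', r, s, hr, hs, hx', hy, hb⟩ := h
  omega

/-- neighbours of a vertex of window `j` -/
theorem E_cases {m j t u : ℕ} (ht : t < 7) (h : E m u (6 * j + t)) :
    (∃ i, i < 7 ∧ u = 6 * j + i ∧ (pget (nw m j) t).testBit i = true) ∨
    (t = 0 ∧ u < 6 * j) ∨ (t = 6 ∧ 6 * (j + 1) < u) := by
  by_cases h1 : ∃ i, i < 7 ∧ u = 6 * j + i
  · obtain ⟨i, hi, hu⟩ := h1
    left
    refine ⟨i, hi, hu, ?_⟩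
    rw [hu] at h
    exact (E_win ht hi).mp (E_symm h)
  · right
    obtain ⟨j', r, s, hr, hs, hx', hy, hb⟩ := h
    have h2 : ¬ (6 * j ≤ u ∧ u ≤ 6 * j + 6) := fun hc => h1 ⟨u - 6 * j, by omega, by omega⟩
    omega

/-- inner vertices have all their neighbours in the window -/
theorem E_inner {m j t u : ℕ} (h1 : 1 ≤ t) (h5 : t ≤ 5) (h : E m u (6 * j + t)) :
    ∃ i, i < 7 ∧ u = 6 * j + i ∧ (pget (nw m j) t).testBit i = true := by
  rcases E_cases (by omega) h with h | h | h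
  · exact h
  · omega
  · omega

/-! ### private neighbours -/

section
variable (m : ℕ) (W S : Finset ℕ)

/-- `z` is a private neighbour of `s` -/
def pn (s z : ℕ) : Prop := z ∈ W ∧ E m s z ∧ ∀ u ∈ S, E m u z → u = s

/-- `z` is not dominated -/
def und (z : ℕ) : Prop := z ∈ W ∧ ∀ u ∈ S, ¬ E m u z

def LS (j : ℕ) : Prop := ∃ u ∈ S, u < 6 * j ∧ E m u (6 * j)
def RS (j : ℕ) : Prop := ∃ u ∈ S, 6 * j < u ∧ E m u (6 * j)

/-- `z` has a neighbour in `S` outside the window -/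
def ext (j t : ℕ) : Prop := (t = 0 ∧ LS m S j) ∨ (t = 6 ∧ RS m S (j + 1))

/-- the condition satisfied by every maximal irredundant set -/
def VP : Prop := ∀ x ∈ W, x ∉ S → (∃ z, E m x z ∧ und m W S z) →
  ∃ s ∈ S, (∃ z, pn m W S s z) ∧ ∀ z, pn m W S s z → E m x z
end

variable {m : ℕ} {W S : Finset ℕ}

theorem und_iff {j t : ℕ} (ht : t < 7) : und m W S (6 * j + t) ↔
    6 * j + t ∈ W ∧ ¬ ext m S j t ∧ Nat.land (pget (nw m j) t) (win S j) = 0 := by
  constructor
  · rintro ⟨h1, h2⟩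
    refine ⟨h1, ?_, ?_⟩
    · rintro (⟨h3, u, hu, _, h4⟩ | ⟨h3, u, hu, _, h4⟩)
      · subst h3; exact h2 u hu h4
      · subst h3; exact h2 u hu h4
    · rw [land_eq_zero_iff]
      intro i hi
      by_contra hc
      have hi7 := lt7_of_testBit (pget_lt _ _) hi
      have h3 : 6 * j + i ∈ S := (win_spec hi7).mp (by simpa using hc)
      exact h2 _ h3 ((E_win hi7 ht).mpr (by rw [nw_sym hi7 ht]; exact hi))
  · rintro ⟨h1, h2, h3⟩
    refine ⟨h1, ?_⟩
    intro u hu hE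
    rcases E_cases ht hE with ⟨i, hi, rfl, hb⟩ | ⟨h4, h5⟩ | ⟨h4, h5⟩
    · rw [land_eq_zero_iff] at h3
      have := h3 i hb
      rw [(win_spec hi).mpr hu] at this
      exact absurd this (by simp)
    · subst h4; exact h2 (Or.inl ⟨rfl, u, hu, h5, hE⟩)
    · subst h4; exact h2 (Or.inr ⟨rfl, u, hu, h5, hE⟩)

theorem pn_iff {j s t : ℕ} (ht : t < 7) (hs : s < 7) (hS : 6 * j + s ∈ S) :
    pn m W S (6 * j + s) (6 * j + t) ↔
    6 * j + t ∈ W ∧ ¬ ext m S j t ∧ Nat.land (pget (nw m j) t) (win S j) = 2 ^ s := by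
  constructor
  · rintro ⟨h1, h2, h3⟩
    refine ⟨h1, ?_, ?_⟩
    · rintro (⟨h5, u, hu, h6, h4⟩ | ⟨h5, u, hu, h6, h4⟩)
      · subst h5; have := h3 u hu h4; omega
      · subst h5; have := h3 u hu h4; omega
    · rw [land_eq_pow_iff]
      intro i
      constructor
      · rintro ⟨ha, hb⟩
        have hi7 := lt7_of_testBit (win_lt _ _) hb
        have h5 := h3 (6 * j + i) ((win_spec hi7).mp hb)
          ((E_win hi7 ht).mpr (by rw [nw_sym hi7 ht]; exact ha))
        omega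
      · rintro rfl
        exact ⟨by rw [nw_sym ht hs]; exact (E_win hs ht).mp h2, (win_spec hs).mpr hS⟩
  · rintro ⟨h1, h2, h3⟩
    rw [land_eq_pow_iff] at h3
    refine ⟨h1, ?_, ?_⟩
    · exact (E_win hs ht).mpr (by rw [nw_sym hs ht]; exact ((h3 s).mpr rfl).1)
    · intro u hu hE
      rcases E_cases ht hE with ⟨i, hi, rfl, hb⟩ | ⟨h4, h5⟩ | ⟨h4, h5⟩
      · rw [(h3 i).mp ⟨hb, (win_spec hi).mpr hu⟩]
      · subst h4; exact absurd (Or.inl ⟨rfl, u, hu, h5, hE⟩) h2
      · subst h4; exact absurd (Or.inr ⟨rfl, u, hu, h5, hE⟩) h2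

theorem ext_inner {j t : ℕ} (h1 : 1 ≤ t) (h5 : t ≤ 5) : ¬ ext m S j t := by
  rintro (⟨h, _⟩ | ⟨h, _⟩) <;> omega

end Pool.Agent.H80.IRG
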